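import Mathlib

/-!
# Homogeneous polynomial self-maps of the plane
-/

set_option autoImplicit false

namespace Pool.Agent.TH61.PCF

open Polynomial

variable {K : Type} [Field K]

/-- the map given by two polynomials, on the points over an algebra -/
noncomputable def pm (F G : MvPolynomial (Fin 2) K) (R : Type) [CommRing R] [Algebra K R]
    (v : Fin 2 → R) : Fin 2 → R :=
  ![MvPolynomial.aeval v F, MvPolynomial.aeval v G]

variable {F G : MvPolynomial (Fin 2) K}

theorem pm_map {R S : Type} [CommRing R] [Algebra K R] [CommRing S] [Algebra K S] (φ : R →ₐ[K] S)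
    (v : Fin 2 → R) : φ ∘ pm F G R v = pm F G S (φ ∘ v) := by
  funext k
  fin_cases k
  · exact MvPolynomial.comp_aeval_apply (f := v) φ F
  · exact MvPolynomial.comp_aeval_apply (f := v) φ G

theorem pm_iter_map {R S : Type} [CommRing R] [Algebra K R] [CommRing S] [Algebra K S]
    (φ : R →ₐ[K] S) (M : ℕ) (v : Fin 2 → R) :
    φ ∘ ((pm F G R)^[M] v) = (pm F G S)^[M] (φ ∘ v) := by
  induction M with
  | zero => rfl
  | succ M ih => rw [Function.iterate_succ_apply', Function.iterate_succ_apply', pm_map, ih]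

theorem sum_exp {F : MvPolynomial (Fin 2) K} {d : ℕ} (hF : F.IsHomogeneous d) {m : Fin 2 →₀ ℕ}
    (hm : m ∈ F.support) : ∑ i, m i = d := by
  have h := hF (MvPolynomial.mem_support_iff.1 hm)
  have h2 : Finsupp.degree m = d := by
    rw [Finsupp.degree_eq_weight_one]
    exact h
  rw [← h2, Finsupp.degree_eq_sum]

theorem aeval_smul_hom {R : Type} [CommRing R] [Algebra K R] {F : MvPolynomial (Fin 2) K} {d : ℕ}
    (hF : F.IsHomogeneous d) (l : R) (v : Fin 2 → R) :
    MvPolynomial.aeval (l • v) F = l ^ d * MvPolynomial.aeval v F := by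
  rw [MvPolynomial.aeval_def, MvPolynomial.aeval_def, MvPolynomial.eval₂_eq',
    MvPolynomial.eval₂_eq', Finset.mul_sum]
  refine Finset.sum_congr rfl fun m hm => ?_
  have h := sum_exp hF hm
  simp only [Pi.smul_apply, smul_eq_mul, mul_pow, Finset.prod_mul_distrib,
    Finset.prod_pow_eq_pow_sum, h]
  ring

theorem pm_smul {R : Type} [CommRing R] [Algebra K R] {d : ℕ} (hF : F.IsHomogeneous d)
    (hG : G.IsHomogeneous d) (l : R) (v : Fin 2 → R) :
    pm F G R (l • v) = l ^ d • pm F G R v := by
  funext k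
  fin_cases k
  · exact aeval_smul_hom hF l v
  · exact aeval_smul_hom hG l v

theorem pm_iter_smul {R : Type} [CommRing R] [Algebra K R] {d : ℕ} (hF : F.IsHomogeneous d)
    (hG : G.IsHomogeneous d) (M : ℕ) (l : R) (v : Fin 2 → R) :
    (pm F G R)^[M] (l • v) = l ^ (d ^ M) • (pm F G R)^[M] v := by
  induction M with
  | zero => rw [pow_zero, pow_one]; rfl
  | succ M ih =>
    rw [Function.iterate_succ_apply', Function.iterate_succ_apply', ih, pm_smul hF hG, ← pow_mul,
      pow_succ]

theorem pm_iter_ne (h0 : ∀ v : Fin 2 → K, MvPolynomial.eval v F = 0 →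
    MvPolynomial.eval v G = 0 → v = 0) (M : ℕ) (v : Fin 2 → K) (hv : v ≠ 0) :
    (pm F G K)^[M] v ≠ 0 := by
  induction M with
  | zero => exact hv
  | succ M ih =>
    rw [Function.iterate_succ_apply']
    intro h
    apply ih
    have e0 := congrFun h 0
    have e1 := congrFun h 1
    exact h0 _ e0 e1

/-- congruences -/
theorem pm_iter_congr (M : ℕ) (v w : Fin 2 → K[X]) (h : ∀ i, X ^ 2 ∣ v i - w i) (i : Fin 2) :
    X ^ 2 ∣ (pm F G K[X])^[M] v i - (pm F G K[X])^[M] w i := by
  set I : Ideal K[X] := Ideal.span {(X : K[X]) ^ 2} with hI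
  set φ := Ideal.Quotient.mkₐ K I with hφ
  have key : ∀ a b : K[X], X ^ 2 ∣ a - b ↔ φ a = φ b := by
    intro a b
    rw [hφ, Ideal.Quotient.mkₐ_eq_mk, Ideal.Quotient.eq, hI, Ideal.mem_span_singleton]
  rw [key]
  have h1 : φ ∘ v = φ ∘ w := funext fun j => (key _ _).1 (h j)
  have h2 := pm_iter_map (F := F) (G := G) φ M v
  have h3 := pm_iter_map (F := F) (G := G) φ M w
  rw [h1, ← h3] at h2
  exact congrFun h2 i

/-- degrees and leading coefficients -/
theorem aeval_deg {F : MvPolynomial (Fin 2) K} {d : ℕ} (hF : F.IsHomogeneous d) {m : ℕ}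
    {v : Fin 2 → K[X]} (hv : ∀ i, (v i).natDegree ≤ m) :
    (MvPolynomial.aeval v F).natDegree ≤ d * m ∧
      (MvPolynomial.aeval v F).coeff (d * m) =
        MvPolynomial.aeval (fun i => (v i).coeff m) F := by
  rw [MvPolynomial.aeval_def, MvPolynomial.aeval_def, MvPolynomial.eval₂_eq',
    MvPolynomial.eval₂_eq']
  have hterm : ∀ s ∈ F.support, ((algebraMap K K[X]) (F.coeff s) *
      ∏ i, v i ^ s i).natDegree ≤ d * m ∧ ((algebraMap K K[X]) (F.coeff s) *
      ∏ i, v i ^ s i).coeff (d * m) = (algebraMap K K) (F.coeff s) *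
      ∏ i, (v i).coeff m ^ s i := by
    intro s hs
    have hd := sum_exp hF hs
    rw [Fin.sum_univ_two] at hd
    rw [Fin.prod_univ_two, Fin.prod_univ_two]
    have e0 : (v 0 ^ s 0).natDegree ≤ s 0 * m :=
      natDegree_pow_le.trans (Nat.mul_le_mul_left _ (hv 0))
    have e1 : (v 1 ^ s 1).natDegree ≤ s 1 * m :=
      natDegree_pow_le.trans (Nat.mul_le_mul_left _ (hv 1))
    have e2 : d * m = s 0 * m + s 1 * m := by rw [← hd]; ring
    have e3 : (v 0 ^ s 0 * v 1 ^ s 1).natDegree ≤ d * m := by
      rw [e2]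
      exact natDegree_mul_le.trans (add_le_add e0 e1)
    constructor
    · refine (natDegree_C_mul_le _ _).trans e3
    · show (C (F.coeff s) * _).coeff _ = _
      rw [coeff_C_mul, e2, coeff_mul_add_eq_of_natDegree_le e0 e1, coeff_pow_of_natDegree_le (hv 0),
        coeff_pow_of_natDegree_le (hv 1)]
      rfl
  constructor
  · exact natDegree_sum_le_of_forall_le _ _ fun s hs => (hterm s hs).1
  · rw [finsetSum_coeff]
    exact Finset.sum_congr rfl fun s hs => (hterm s hs).2

theorem pm_iter_deg {d : ℕ} (hF : F.IsHomogeneous d) (hG : G.IsHomogeneous d) (M : ℕ)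
    {v : Fin 2 → K[X]} (hv : ∀ i, (v i).natDegree ≤ 1) :
    (∀ i, ((pm F G K[X])^[M] v i).natDegree ≤ d ^ M) ∧
      (fun i => ((pm F G K[X])^[M] v i).coeff (d ^ M)) =
        (pm F G K)^[M] (fun i => (v i).coeff 1) := by
  induction M with
  | zero => exact ⟨hv, by simp⟩
  | succ M ih =>
    obtain ⟨h1, h2⟩ := ih
    have hF' := aeval_deg hF h1
    have hG' := aeval_deg hG h1
    rw [pow_succ, mul_comm]
    constructor
    · intro i
      rw [Function.iterate_succ_apply']
      fin_cases i
      · exact hF'.1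
      · exact hG'.1
    · have e : (pm F G K)^[M + 1] (fun i => (v i).coeff 1) =
          pm F G K ((pm F G K)^[M] (fun i => (v i).coeff 1)) := Function.iterate_succ_apply' _ _ _
      rw [e, ← h2]
      funext i
      rw [Function.iterate_succ_apply']
      fin_cases i
      · exact hF'.2
      · exact hG'.2

/-- the derivative along a line -/
theorem derivative_line (F : MvPolynomial (Fin 2) K) (ℓ : Fin 2 → K[X]) :
    derivative (MvPolynomial.aeval ℓ F) =
      MvPolynomial.aeval ℓ (MvPolynomial.pderiv 0 F) * derivative (ℓ 0) +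
      MvPolynomial.aeval ℓ (MvPolynomial.pderiv 1 F) * derivative (ℓ 1) := by
  induction F using MvPolynomial.induction_on with
  | C a => simp
  | add p q hp hq => rw [map_add, derivative_add, hp, hq, map_add, map_add, map_add, map_add]; ring
  | mul_X p j hp =>
    rw [map_mul, derivative_mul, hp, MvPolynomial.aeval_X, Derivation.leibniz, Derivation.leibniz]
    fin_cases j <;> simp [MvPolynomial.pderiv_X] <;> ring

end Pool.Agent.TH61.PCF
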