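import Pool.Agent.TH61.PCF.Alg1

/-!
# Superattracting fixed points and other fixed points
-/

set_option autoImplicit false

namespace Pool.Agent.TH61.PCF

open Polynomial

variable {K : Type} [Field K]

/-- the determinant -/
def det2 {R : Type} [CommRing R] (u v : Fin 2 → R) : R := u 0 * v 1 - u 1 * v 0

/-- constants -/
noncomputable def cc (v : Fin 2 → K) : Fin 2 → K[X] := fun i => C (v i)

/-- a line -/
noncomputable def line (c w : Fin 2 → K) : Fin 2 → K[X] := fun i => C (c i) + X * C (w i)

variable {F G : MvPolynomial (Fin 2) K}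

theorem iter_eval (M : ℕ) (v : Fin 2 → K[X]) (τ : K) (i : Fin 2) :
    ((pm F G K[X])^[M] v i).eval τ = (pm F G K)^[M] (fun j => (v j).eval τ) i := by
  have := pm_iter_map (F := F) (G := G) (aeval τ : K[X] →ₐ[K] K) M v
  have h := congrFun this i
  rw [Function.comp_apply, coe_aeval_eq_eval] at h
  rw [h]
  rfl

theorem iter_comp (M : ℕ) (v : Fin 2 → K[X]) (q : K[X]) (i : Fin 2) :
    ((pm F G K[X])^[M] v i).comp q = (pm F G K[X])^[M] (fun j => (v j).comp q) i := by
  have := pm_iter_map (F := F) (G := G) (aeval q : K[X] →ₐ[K] K[X]) M v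
  exact congrFun this i

theorem iter_const (M : ℕ) (v : Fin 2 → K) :
    (pm F G K[X])^[M] (cc v) = cc ((pm F G K)^[M] v) :=
  (pm_iter_map (F := F) (G := G) (Algebra.ofId K K[X]) M v).symm

theorem det_eval (u v : Fin 2 → K[X]) (τ : K) :
    (det2 u v).eval τ = det2 (fun i => (u i).eval τ) (fun i => (v i).eval τ) := by
  simp [det2]

/-- parallel vectors -/
theorem parallel {u v : Fin 2 → K} (hu : u ≠ 0) (h : det2 u v = 0) : ∃ s : K, v = s • u := by
  unfold det2 at h
  by_cases h0 : u 0 = 0
  · have h1 : u 1 ≠ 0 := by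
      intro h1
      apply hu
      funext i
      fin_cases i
      · exact h0
      · exact h1
    refine ⟨v 1 / u 1, ?_⟩
    funext i
    fin_cases i
    · simp only [Fin.zero_eta, Pi.smul_apply, smul_eq_mul, h0, mul_zero]
      rw [h0, zero_mul, zero_sub, neg_eq_zero] at h
      exact (mul_eq_zero.1 h).resolve_left h1
    · simp only [Fin.mk_one, Pi.smul_apply, smul_eq_mul]
      field_simp
  · refine ⟨v 0 / u 0, ?_⟩
    funext i
    fin_cases i
    · simp only [Fin.zero_eta, Pi.smul_apply, smul_eq_mul]
      field_simp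
    · simp only [Fin.mk_one, Pi.smul_apply, smul_eq_mul]
      field_simp
      linear_combination h

theorem line_eval (c w : Fin 2 → K) (τ : K) : (fun i => (line c w i).eval τ) = c + τ • w := by
  funext i
  simp only [line, eval_add, eval_C, eval_mul, eval_X, Pi.add_apply, Pi.smul_apply, smul_eq_mul]

/-- a point that is not fixed -/
theorem exists_nonfixed [Infinite K] {M : ℕ} {c : Fin 2 → K} (hc0 : c ≠ 0) {t : K} (ht : t ≠ 0)
    (hc : (pm F G K)^[M] c = t • c)
    (hSA : ∀ w, X ^ 2 ∣ det2 (cc c) ((pm F G K[X])^[M] (line c w))) :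
    ∃ w, det2 c w ≠ 0 ∧ det2 w ((pm F G K)^[M] w) ≠ 0 := by
  obtain ⟨v, hv⟩ : ∃ v : Fin 2 → K, det2 c v ≠ 0 := by
    by_contra hcon
    push Not at hcon
    apply hc0
    have h1 := hcon ![0, 1]
    have h2 := hcon ![1, 0]
    simp only [det2, Matrix.cons_val_zero, Matrix.cons_val_one, mul_one, mul_zero, sub_zero,
      zero_sub, neg_eq_zero] at h1 h2
    funext i
    fin_cases i
    · exact h1
    · exact h2
  set V := (pm F G K[X])^[M] (line c v) with hV
  have hV0 : (fun i => (V i).eval 0) = t • c := by
    funext i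
    rw [hV, iter_eval, line_eval, zero_smul, add_zero, hc]
  have hq : det2 (line c v) V ≠ 0 := by
    intro h
    have e : det2 (line c v) V = det2 (cc c) V + X * det2 (cc v) V := by
      simp only [det2, line, cc]
      ring
    rw [e] at h
    have h1 : (X : K[X]) ^ 2 ∣ X * det2 (cc v) V := by
      have h2 := hSA v
      rw [← hV] at h2
      rw [eq_neg_of_add_eq_zero_right h]
      exact (dvd_neg).2 h2
    rw [sq] at h1
    have h2 : (X : K[X]) ∣ det2 (cc v) V := (mul_dvd_mul_iff_left X_ne_zero).1 h1
    rw [X_dvd_iff, coeff_zero_eq_eval_zero, det_eval, hV0] at h2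
    apply hv
    apply mul_left_cancel₀ ht
    simp only [det2, cc, eval_C, Pi.smul_apply, smul_eq_mul] at h2 ⊢
    linear_combination -h2
  obtain ⟨τ, hτ⟩ : ∃ τ, (det2 (line c v) V).eval τ ≠ 0 := by
    by_contra hcon
    push Not at hcon
    apply hq
    apply Polynomial.funext
    intro r
    rw [hcon r, eval_zero]
  rw [det_eval, line_eval] at hτ
  have e1 : (fun i => (V i).eval τ) = (pm F G K)^[M] (c + τ • v) := by
    funext i
    rw [hV, iter_eval, line_eval]
  rw [e1] at hτ
  refine ⟨c + τ • v, ?_, hτ⟩
  intro h0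
  have h1 : τ * det2 c v = 0 := by
    rw [← h0]
    simp only [det2, Pi.add_apply, Pi.smul_apply, smul_eq_mul]
    ring
  have h2 : τ = 0 := (mul_eq_zero.1 h1).resolve_right hv
  apply hτ
  rw [h2, zero_smul, add_zero, hc]
  simp only [det2, Pi.smul_apply, smul_eq_mul]
  ring

/-- a fixed point that is not superattracting, on a line -/
theorem exists_root [IsAlgClosed K] [CharZero K] {d M : ℕ} (hd : 2 ≤ d)
    (hF : F.IsHomogeneous d) (hG : G.IsHomogeneous d)
    (h0 : ∀ v : Fin 2 → K, MvPolynomial.eval v F = 0 → MvPolynomial.eval v G = 0 → v = 0)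
    {c w : Fin 2 → K} (hcw : det2 c w ≠ 0) (hw : det2 w ((pm F G K)^[M] w) ≠ 0) :
    ∃ x : K, (det2 (line c w) ((pm F G K[X])^[M] (line c w))).eval x = 0 ∧
      (derivative (det2 (line c w) ((pm F G K[X])^[M] (line c w)))).eval x ≠
        (det2 (cc w) ((pm F G K[X])^[M] (line c w))).eval x := by
  classical
  set V := (pm F G K[X])^[M] (line c w) with hV
  set q := det2 (line c w) V with hq
  set ω := det2 (cc w) V with hω
  set D := d ^ M with hD
  have hD1 : 1 ≤ D := Nat.one_le_pow _ _ (by omega)
  have hline : ∀ i, (line c w i).natDegree ≤ 1 := by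
    intro i
    unfold line
    compute_degree
  obtain ⟨hdeg, hco⟩ := pm_iter_deg hF hG M hline
  have hl1 : (fun i => (line c w i).coeff 1) = w := by
    funext i
    simp [line, coeff_C]
  rw [hl1, ← hV, ← hD] at hco
  rw [← hV, ← hD] at hdeg
  have hco' : ∀ i, (V i).coeff D = (pm F G K)^[M] w i := fun i => congrFun hco i
  -- degrees
  have hωdeg : ω.natDegree ≤ D := by
    rw [hω]
    unfold det2 cc
    refine (natDegree_sub_le _ _).trans (max_le ?_ ?_)
    · exact (natDegree_C_mul_le _ _).trans (hdeg 1)
    · exact (natDegree_C_mul_le _ _).trans (hdeg 0)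
  have hcdeg : (det2 (cc c) V).natDegree ≤ D := by
    unfold det2 cc
    refine (natDegree_sub_le _ _).trans (max_le ?_ ?_)
    · exact (natDegree_C_mul_le _ _).trans (hdeg 1)
    · exact (natDegree_C_mul_le _ _).trans (hdeg 0)
  have hωco : ω.coeff D = det2 w ((pm F G K)^[M] w) := by
    rw [hω]
    unfold det2 cc
    rw [coeff_sub, coeff_C_mul, coeff_C_mul, hco', hco']
  have hqe : q = det2 (cc c) V + X * ω := by
    rw [hq, hω]
    simp only [det2, line, cc]
    ring
  have hqco : q.coeff (D + 1) = det2 w ((pm F G K)^[M] w) := by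
    rw [hqe, coeff_add, coeff_X_mul, hωco, coeff_eq_zero_of_natDegree_lt (by omega), zero_add]
  have hqdeg : q.natDegree = D + 1 := by
    apply le_antisymm
    · rw [hqe]
      refine (natDegree_add_le _ _).trans (max_le (by omega) ?_)
      refine natDegree_mul_le.trans ?_
      rw [natDegree_X]
      omega
    · exact le_natDegree_of_ne_zero (by rw [hqco]; exact hw)
  have hq0 : q ≠ 0 := by
    intro h
    rw [h, natDegree_zero] at hqdeg
    omega
  by_contra hcon
  push Not at hcon
  -- simple roots
  have hsimple : ∀ x, q.eval x = 0 → (derivative q).eval x ≠ 0 := by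
    intro x hx hx'
    have h1 := hcon x hx
    rw [hx'] at h1
    -- the point
    set g : Fin 2 → K := c + x • w with hg
    have hgw : det2 g w = det2 c w := by
      simp only [hg, det2, Pi.add_apply, Pi.smul_apply, smul_eq_mul]
      ring
    have hg0 : g ≠ 0 := by
      intro h
      apply hcw
      rw [← hgw, h]
      simp [det2]
    have hVx : (fun i => (V i).eval x) = (pm F G K)^[M] g := by
      funext i
      rw [hV, iter_eval, line_eval]
    rw [hq, det_eval, line_eval, hVx] at hx
    obtain ⟨s, hs⟩ := parallel hg0 hx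
    rw [hω, det_eval, hVx, hs] at h1
    have h2 : s * det2 c w = 0 := by
      rw [← hgw]
      simp only [det2, cc, eval_C, Pi.smul_apply, smul_eq_mul] at h1 ⊢
      linear_combination h1
    have hs0 : s = 0 := (mul_eq_zero.1 h2).resolve_right hcw
    rw [hs0, zero_smul] at hs
    exact pm_iter_ne h0 M g hg0 hs
  have hnodup : q.roots.Nodup := by
    rw [Multiset.nodup_iff_count_le_one]
    intro x
    rw [count_roots]
    by_contra hlt
    push Not at hlt
    have h1 := (one_lt_rootMultiplicity_iff_isRoot hq0).1 hlt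
    exact hsimple x h1.1 h1.2
  have hcard : q.roots.toFinset.card = D + 1 := by
    rw [Multiset.toFinset_card_of_nodup hnodup, ← hqdeg]
    exact (splits_iff_card_roots.1 (IsAlgClosed.splits q))
  have hzero : derivative q - ω = 0 := by
    apply eq_zero_of_natDegree_lt_card_of_eval_eq_zero' _ q.roots.toFinset
    · intro x hx
      rw [Multiset.mem_toFinset, mem_roots hq0] at hx
      rw [eval_sub, hcon x hx, sub_self]
    · rw [hcard]
      refine lt_of_le_of_lt ?_ (Nat.lt_succ_self D)
      refine (natDegree_sub_le _ _).trans (max_le ?_ hωdeg)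
      refine (natDegree_derivative_le q).trans ?_
      omega
  have hfin := congrArg (fun f => coeff f D) hzero
  simp only [coeff_sub, coeff_derivative, coeff_zero, hqco, hωco] at hfin
  have h1 : (D : K) * det2 w ((pm F G K)^[M] w) = 0 := by linear_combination hfin
  rcases mul_eq_zero.1 h1 with h | h
  · have : D = 0 := by exact_mod_cast h
    omega
  · exact hw h

end Pool.Agent.TH61.PCF
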