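import Mathlib

/-!
# Zariski density from attraction and recurrence at different places
-/

set_option autoImplicit false

namespace Pool.Agent.TH61.PCF

open Filter Topology

/-- one coordinate tends to zero at a place where the others are recurrent -/
theorem density {K : Type} [Field K] : ∀ (N : ℕ) (t : ℕ → Fin N → K)
    (_ : ∀ i : Fin N, ∃ (Ω : Type) (_ : NormedField Ω) (σ : K →+* Ω) (M : ℕ → ℕ),
      (∀ n, t n i ≠ 0) ∧ Tendsto (fun n => σ (t n i)) atTop (𝓝 0) ∧ Tendsto M atTop atTop ∧
      ∀ m j, i < j → Tendsto (fun k => σ (t (m + M k) j)) atTop (𝓝 (σ (t m j))))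
    (R : MvPolynomial (Fin N) K), (∀ n, MvPolynomial.eval (t n) R = 0) → R = 0 := by
  intro N
  induction N with
  | zero =>
    intro t _ R hR
    rw [MvPolynomial.eq_C_of_isEmpty R] at hR ⊢
    have := hR 0
    rw [MvPolynomial.eval_C] at this
    rw [this, map_zero]
  | succ N ih =>
    intro t ht R hR
    set s : ℕ → Fin N → K := fun n j => t n j.succ with hs
    have hcons : ∀ n, t n = Fin.cons (t n 0) (s n) := fun n => (Fin.cons_self_tail (t n)).symm
    have IH := ih s (by
      intro i
      obtain ⟨Ω, hΩ, σ, M, h1, h2, h3, h4⟩ := ht i.succ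
      exact ⟨Ω, hΩ, σ, M, h1, h2, h3, fun m j hij => h4 m j.succ (Fin.succ_lt_succ_iff.2 hij)⟩)
    obtain ⟨Ω, hΩ, σ, M, h1, h2, h3, h4⟩ := ht 0
    -- polynomials in the first variable
    have main : ∀ (d : ℕ) (Q : Polynomial (MvPolynomial (Fin N) K)), Q.natDegree ≤ d →
        (∀ n, Polynomial.eval (t n 0) (Q.map (MvPolynomial.eval (s n))) = 0) → Q = 0 := by
      -- the constant coefficient vanishes
      have hc : ∀ Q : Polynomial (MvPolynomial (Fin N) K),
          (∀ n, Polynomial.eval (t n 0) (Q.map (MvPolynomial.eval (s n))) = 0) →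
          Q.coeff 0 = 0 := by
        intro Q hQ
        apply IH
        intro m
        apply σ.injective
        rw [map_zero]
        -- the polynomial over Ω
        set R' : MvPolynomial (Fin (N + 1)) K := (MvPolynomial.finSuccEquiv K N).symm Q with hR'
        have hQR : MvPolynomial.finSuccEquiv K N R' = Q := AlgEquiv.apply_symm_apply _ _
        have e1 : ∀ (y : K) (w : Fin N → K), MvPolynomial.eval (Fin.cons y w : Fin (N + 1) → K) R' =
            Polynomial.eval y (Q.map (MvPolynomial.eval w)) := by
          intro y w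
          rw [MvPolynomial.eval_eq_eval_mv_eval', hQR]
        have hcont := MvPolynomial.continuous_eval (MvPolynomial.map σ R')
        have hlim : Tendsto (fun k => (Fin.cons (σ (t (m + M k) 0))
            (fun j => σ (s (m + M k) j)) : Fin (N + 1) → Ω)) atTop
            (𝓝 (Fin.cons 0 (fun j => σ (s m j)))) := by
          rw [tendsto_pi_nhds]
          intro i
          refine Fin.cases ?_ (fun j => ?_) i
          · simp only [Fin.cons_zero]
            exact h2.comp (tendsto_atTop_mono (fun k => Nat.le_add_left (M k) m) h3)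
          · simp only [Fin.cons_succ]
            exact h4 m j.succ (Fin.succ_pos j)
        have hev := (hcont.tendsto _).comp hlim
        have hz : ∀ k, MvPolynomial.eval (Fin.cons (σ (t (m + M k) 0))
            (fun j => σ (s (m + M k) j)) : Fin (N + 1) → Ω) (MvPolynomial.map σ R') = 0 := by
          intro k
          have e2 : (Fin.cons (σ (t (m + M k) 0)) (fun j => σ (s (m + M k) j)) :
              Fin (N + 1) → Ω) = σ ∘ (Fin.cons (t (m + M k) 0) (s (m + M k))) := by
            funext i
            refine Fin.cases ?_ (fun j => ?_) i <;> simp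
          rw [e2, MvPolynomial.eval_map, ← MvPolynomial.eval₂_comp, e1, hQ, map_zero]
        have hz' : MvPolynomial.eval (Fin.cons 0 (fun j => σ (s m j)) : Fin (N + 1) → Ω)
            (MvPolynomial.map σ R') = 0 := by
          refine tendsto_nhds_unique hev ?_
          refine tendsto_const_nhds.congr fun k => ?_
          exact (hz k).symm
        have e3 : (Fin.cons 0 (fun j => σ (s m j)) : Fin (N + 1) → Ω) =
            σ ∘ (Fin.cons 0 (s m)) := by
          funext i
          refine Fin.cases ?_ (fun j => ?_) i <;> simp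
        rw [e3, MvPolynomial.eval_map, ← MvPolynomial.eval₂_comp, e1] at hz'
        rw [← Polynomial.coeff_zero_eq_eval_zero, Polynomial.coeff_map] at hz'
        exact hz'
      intro d
      induction d with
      | zero =>
        intro Q hQd hQ
        rw [Polynomial.eq_C_of_natDegree_le_zero hQd, hc Q hQ, map_zero]
      | succ d ihd =>
        intro Q hQd hQ
        have h0 := hc Q hQ
        obtain ⟨Q', rfl⟩ := Polynomial.X_dvd_iff.2 h0
        have h5 : Q' = 0 := by
          apply ihd
          · by_cases hQ0 : Q' = 0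
            · rw [hQ0]; simp
            · rw [Polynomial.natDegree_X_mul hQ0] at hQd
              omega
          · intro n
            have := hQ n
            rw [Polynomial.map_mul, Polynomial.map_X, Polynomial.eval_mul, Polynomial.eval_X] at this
            exact (mul_eq_zero.1 this).resolve_left (h1 n)
        rw [h5, mul_zero]
    have h6 := main _ (MvPolynomial.finSuccEquiv K N R) le_rfl (by
      intro n
      rw [← MvPolynomial.eval_eq_eval_mv_eval', ← hcons]
      exact hR n)
    exact (map_eq_zero_iff _ (MvPolynomial.finSuccEquiv K N).injective).1 h6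

/-- recurrence of isometric orbits in compact spaces -/
theorem recurrent {X : Type} [MetricSpace X] [CompactSpace X] (u : ℕ → X)
    (hu : ∀ n m, dist (u (n + 1)) (u (m + 1)) = dist (u n) (u m)) :
    ∃ M : ℕ → ℕ, Tendsto M atTop atTop ∧
      ∀ m, Tendsto (fun k => u (m + M k)) atTop (𝓝 (u m)) := by
  have hk : ∀ k n m, dist (u (n + k)) (u (m + k)) = dist (u n) (u m) := by
    intro k
    induction k with
    | zero => intro n m; rfl
    | succ k ih => intro n m; rw [← add_assoc, ← add_assoc, hu, ih]
  obtain ⟨x, φ, hφ, hx⟩ := CompactSpace.tendsto_subseq u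
  have hex : ∀ k : ℕ, ∃ M : ℕ, k ≤ M ∧ ∀ m, dist (u (m + M)) (u m) < 1 / ((k : ℝ) + 1) := by
    intro k
    have hε : (0 : ℝ) < 1 / ((k : ℝ) + 1) / 2 := by positivity
    obtain ⟨n₀, hn₀⟩ := Metric.tendsto_atTop.1 hx _ hε
    have h1 := hn₀ n₀ le_rfl
    have h2 := hn₀ (φ n₀ + n₀ + k) (by omega)
    have h3 : φ n₀ + n₀ + k ≤ φ (φ n₀ + n₀ + k) := hφ.id_le _
    set a := φ n₀ with ha
    set b := φ (a + n₀ + k) with hb
    refine ⟨b - a, by omega, fun m => ?_⟩
    have h4 : dist (u b) (u a) < 1 / ((k : ℝ) + 1) := by
      have := dist_triangle_right (u b) (u a) x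
      simp only [Function.comp_apply] at h1 h2
      linarith
    have h5 : dist (u (m + (b - a))) (u m) = dist (u (b - a)) (u 0) := by
      have := hk m (b - a) 0
      rwa [zero_add, add_comm (b - a) m] at this
    have h6 : dist (u b) (u a) = dist (u (b - a)) (u 0) := by
      have := hk a (b - a) 0
      rwa [zero_add, Nat.sub_add_cancel (by omega)] at this
    rw [h5, ← h6]
    exact h4
  choose M hM1 hM2 using hex
  refine ⟨M, tendsto_atTop_mono hM1 tendsto_id, fun m => ?_⟩
  rw [Metric.tendsto_atTop]
  intro ε hε
  obtain ⟨k₀, hk₀⟩ := exists_nat_one_div_lt hε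
  refine ⟨k₀, fun k hk => (hM2 k m).trans (lt_of_le_of_lt ?_ hk₀)⟩
  gcongr

end Pool.Agent.TH61.PCF
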