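import Mathlib

/-!
# Local dynamics over the `p`-adic integers
-/

set_option autoImplicit false

namespace Pool.Agent.TH61.PCF

open Polynomial Filter Topology

section ring

variable {p : ℕ} [Fact p.Prime]

theorem norm_eval_sub (A : ℤ_[p][X]) (x y : ℤ_[p]) : ‖A.eval x - A.eval y‖ ≤ ‖x - y‖ := by
  obtain ⟨k, hk⟩ := A.sub_dvd_eval_sub x y
  rw [hk, norm_mul]
  exact mul_le_of_le_one_right (norm_nonneg _) (PadicInt.norm_le_one _)

/-- small perturbations of units are units -/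
theorem unit_of_near {x y : ℤ_[p]} (hy : IsUnit y) (h : ‖x - y‖ < 1) : IsUnit x := by
  rw [PadicInt.isUnit_iff] at hy ⊢
  refine le_antisymm (PadicInt.norm_le_one _) (not_lt.1 fun hlt => ?_)
  have h1 : ‖y‖ < 1 := by
    have e : y = x + -(x - y) := by ring
    rw [e]
    refine (PadicInt.nonarchimedean _ _).trans_lt (max_lt hlt ?_)
    rwa [norm_neg]
  rw [hy] at h1
  exact lt_irrefl _ h1

theorem unit_eval {A : ℤ_[p][X]} (hA : IsUnit (A.eval 0)) {x : ℤ_[p]} (hx : ‖x‖ < 1) :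
    IsUnit (A.eval x) := by
  refine unit_of_near hA ((norm_eval_sub A x 0).trans_lt ?_)
  rwa [sub_zero]

/-- the local map near a fixed point with unit multiplier -/
noncomputable def gmap (U V : ℤ_[p][X]) (x : ℤ_[p]) : ℤ_[p] :=
  x * U.eval x * Ring.inverse (V.eval x)

theorem gmap_spec {U V : ℤ_[p][X]} (hV : IsUnit (V.eval 0)) {x : ℤ_[p]} (hx : ‖x‖ < 1) :
    gmap U V x * V.eval x = x * U.eval x := by
  unfold gmap
  rw [mul_assoc, Ring.inverse_mul_cancel _ (unit_eval hV hx), mul_one]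

theorem norm_unit_mul {u x : ℤ_[p]} (hu : IsUnit u) : ‖x * u‖ = ‖x‖ := by
  rw [norm_mul, PadicInt.isUnit_iff.1 hu, mul_one]

theorem gmap_norm {U V : ℤ_[p][X]} (hU : IsUnit (U.eval 0)) (hV : IsUnit (V.eval 0)) {x : ℤ_[p]}
    (hx : ‖x‖ < 1) : ‖gmap U V x‖ = ‖x‖ := by
  rw [← norm_unit_mul (unit_eval hV hx), gmap_spec hV hx, norm_unit_mul (unit_eval hU hx)]

theorem gmap_isom {U V : ℤ_[p][X]} (hU : IsUnit (U.eval 0)) (hV : IsUnit (V.eval 0))
    {x y : ℤ_[p]} (hx : ‖x‖ < 1) (hy : ‖y‖ < 1) :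
    ‖gmap U V x - gmap U V y‖ = ‖x - y‖ := by
  obtain ⟨k, hk⟩ := U.sub_dvd_eval_sub x y
  obtain ⟨l, hl⟩ := V.sub_dvd_eval_sub x y
  have e : (gmap U V x - gmap U V y) * (V.eval x * V.eval y) =
      (x - y) * (U.eval x * V.eval y + y * (k * V.eval y - U.eval y * l)) := by
    have h1 := gmap_spec (U := U) hV hx
    have h2 := gmap_spec (U := U) hV hy
    linear_combination (V.eval y) * h1 - (V.eval x) * h2 + y * V.eval y * hk -
      y * U.eval y * hl
  have h3 : IsUnit (V.eval x * V.eval y) := (unit_eval hV hx).mul (unit_eval hV hy)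
  have h4 : IsUnit (U.eval x * V.eval y + y * (k * V.eval y - U.eval y * l)) := by
    refine unit_of_near ((unit_eval hU hx).mul (unit_eval hV hy)) ?_
    rw [add_sub_cancel_left, norm_mul]
    exact (mul_le_of_le_one_right (norm_nonneg _) (PadicInt.norm_le_one _)).trans_lt hy
  rw [← norm_unit_mul h3, e, norm_unit_mul h4]

end ring

section place

variable {p : ℕ} [Fact p.Prime]

/-- the `p`-adic integers in the algebraic closure -/
noncomputable def io (p : ℕ) [Fact p.Prime] : ℤ_[p] →+* PadicAlgCl p :=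
  (algebraMap ℚ_[p] (PadicAlgCl p)).comp (algebraMap ℤ_[p] ℚ_[p])

theorem io_norm (x : ℤ_[p]) : ‖io p x‖ = ‖x‖ := PadicAlgCl.norm_extends p (x : ℚ_[p])

theorem io_inj : Function.Injective (io p) :=
  (algebraMap ℚ_[p] (PadicAlgCl p)).injective.comp Subtype.coe_injective

theorem io_cont : Continuous (io p) := by
  have : Isometry (io p) := AddMonoidHomClass.isometry_of_norm (io p) io_norm
  exact this.continuous

variable {K : Type} [Field K] (σ : K →+* PadicAlgCl p)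

theorem lift_poly (a : K[X]) (h : ∀ n ∈ a.support, ∃ x, σ (a.coeff n) = io p x) :
    ∃ A : ℤ_[p][X], A.map (io p) = a.map σ := by
  have : a.map σ ∈ lifts (io p) := by
    rw [lifts_iff_coeff_lifts]
    intro n
    rw [coeff_map]
    by_cases hn : n ∈ a.support
    · obtain ⟨x, hx⟩ := h n hn
      exact ⟨x, hx.symm⟩
    · rw [Polynomial.notMem_support_iff.1 hn, map_zero]
      exact ⟨0, map_zero _⟩
  exact (mem_lifts _).1 this

theorem lift_eval {a : K[X]} {A : ℤ_[p][X]} (h : A.map (io p) = a.map σ) {τ : K} {x : ℤ_[p]}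
    (hx : σ τ = io p x) : σ (a.eval τ) = io p (A.eval x) := by
  rw [← eval_map_apply, ← eval_map_apply, h, hx]

theorem lift_unit {z : K} (hz : z ≠ 0) {x : ℤ_[p]} (h1 : σ z = io p x)
    (h2 : ∃ y, σ z⁻¹ = io p y) : IsUnit x := by
  obtain ⟨y, hy⟩ := h2
  refine IsUnit.of_mul_eq_one y ?_
  apply io_inj
  rw [map_mul, ← h1, ← hy, ← map_mul, mul_inv_cancel₀ hz, map_one, map_one]

theorem ne_zero_of_unit {z : K} {x : ℤ_[p]} (h1 : σ z = io p x) (hx : IsUnit x) : z ≠ 0 := by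
  rintro rfl
  rw [map_zero] at h1
  have : x = 0 := io_inj (by rw [← h1, map_zero])
  rw [this] at hx
  exact not_isUnit_zero hx

/-- one step of attraction -/
theorem att_step {a b : K[X]} {A B : ℤ_[p][X]} (hA : A.map (io p) = a.map σ)
    (hB : B.map (io p) = b.map σ) (uA : IsUnit (A.eval 0)) (uB : IsUnit (B.eval 0)) {e : ℕ}
    (he : 2 ≤ e) {τ : K} (hτ : τ ≠ 0) {x : ℤ_[p]} (hx : σ τ = io p x) (hx1 : ‖x‖ < 1) :
    a.eval τ ≠ 0 ∧ b.eval τ ≠ 0 ∧
      ∃ x' : ℤ_[p], σ (τ ^ e * b.eval τ / a.eval τ) = io p x' ∧ ‖x'‖ ≤ ‖x‖ * ‖x‖ := by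
  have u1 := unit_eval uA hx1
  have u2 := unit_eval uB hx1
  have e1 := lift_eval σ hA hx
  have e2 := lift_eval σ hB hx
  have h1 := ne_zero_of_unit σ e1 u1
  have h2 := ne_zero_of_unit σ e2 u2
  refine ⟨h1, h2, x ^ e * B.eval x * Ring.inverse (A.eval x), ?_, ?_⟩
  · rw [map_div₀, map_mul, map_pow, e1, e2, hx, map_mul, map_mul, map_pow, div_eq_iff]
    · rw [mul_assoc, ← map_mul, Ring.inverse_mul_cancel _ u1, map_one, mul_one]
    · rw [← e1]
      exact (map_ne_zero σ).2 h1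
  · have h3 : ‖Ring.inverse (A.eval x)‖ ≤ 1 := PadicInt.norm_le_one _
    rw [norm_mul, norm_unit_mul u2, norm_pow]
    calc ‖x‖ ^ e * ‖Ring.inverse (A.eval x)‖ ≤ ‖x‖ ^ e * 1 := by gcongr
      _ = ‖x‖ ^ e := mul_one _
      _ ≤ ‖x‖ ^ 2 := pow_le_pow_of_le_one (norm_nonneg _) hx1.le he
      _ = ‖x‖ * ‖x‖ := sq _

/-- one step of recurrence -/
theorem rec_step {a b : K[X]} {A B : ℤ_[p][X]} (hA : A.map (io p) = a.map σ)
    (hB : B.map (io p) = b.map σ) (uA : IsUnit (A.eval 0)) (uB : IsUnit (B.eval 0))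
    {τ : K} {x : ℤ_[p]} (hx : σ τ = io p x) (hx1 : ‖x‖ < 1) :
    a.eval τ ≠ 0 ∧ b.eval τ ≠ 0 ∧ σ (τ * a.eval τ / b.eval τ) = io p (gmap A B x) := by
  have u1 := unit_eval uA hx1
  have u2 := unit_eval uB hx1
  have e1 := lift_eval σ hA hx
  have e2 := lift_eval σ hB hx
  have h1 := ne_zero_of_unit σ e1 u1
  have h2 := ne_zero_of_unit σ e2 u2
  refine ⟨h1, h2, ?_⟩
  rw [map_div₀, map_mul, div_eq_iff ((map_ne_zero σ).2 h2), e1, e2, hx, ← map_mul, ← map_mul,
    gmap_spec uB hx1]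

end place

end Pool.Agent.TH61.PCF
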