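import Pool.Agent.TH61.PCF.Emb
import Pool.Agent.TH61.PCF.Dens
import Pool.Agent.TH61.PCF.Loc

/-!
# Dense orbits from coordinates with a superattracting and another fixed point
-/

set_option autoImplicit false

namespace Pool.Agent.TH61.PCF

open Polynomial Filter Topology

/-- a homogeneous self-map of the plane in good coordinates: `c` is superattracting, `γ` is fixed
with multiplier different from zero -/
structure Coord (K : Type) [Field K] where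
  Ψ : (Fin 2 → K) → (Fin 2 → K)
  D : ℕ
  c : Fin 2 → K
  γ : Fin 2 → K
  a : K[X]
  b : K[X]
  a' : K[X]
  b' : K[X]
  e : ℕ
  he : 2 ≤ e
  hind : c 0 * γ 1 - c 1 * γ 0 ≠ 0
  hom : ∀ (l : K) (v : Fin 2 → K), Ψ (l • v) = l ^ D • Ψ v
  h1 : ∀ τ : K, Ψ (c + τ • γ) = a.eval τ • c + (τ ^ e * b.eval τ) • γ
  h2 : ∀ τ : K, Ψ (γ + τ • c) = b'.eval τ • γ + (τ * a'.eval τ) • c
  ha : a.eval 0 ≠ 0
  hb : b.eval 0 ≠ 0
  ha' : a'.eval 0 ≠ 0
  hb' : b'.eval 0 ≠ 0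

section abs

variable {K : Type} [Field K] (C : Coord K)

/-- the affine orbit -/
noncomputable def Coord.T (τ : K) : ℕ → K
  | 0 => τ
  | n + 1 => (Coord.T τ n) ^ C.e * C.b.eval (Coord.T τ n) / C.a.eval (Coord.T τ n)

theorem Coord.uniq {x y x' y' : K} (h : x • C.c + y • C.γ = x' • C.c + y' • C.γ) :
    x = x' ∧ y = y' := by
  have h0 := congrFun h 0
  have h1 := congrFun h 1
  simp only [Pi.add_apply, Pi.smul_apply, smul_eq_mul] at h0 h1
  constructor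
  · apply mul_right_cancel₀ C.hind
    linear_combination C.γ 1 * h0 - C.γ 0 * h1
  · apply mul_right_cancel₀ C.hind
    linear_combination C.c 0 * h1 - C.c 1 * h0

theorem Coord.orbit {τ : K} (hT : ∀ n, C.a.eval (C.T τ n) ≠ 0) {α : Fin 2 → K} {r₀ : K}
    (hr : r₀ ≠ 0) (hα : α = r₀ • (C.c + τ • C.γ)) (n : ℕ) :
    ∃ r : K, r ≠ 0 ∧ C.Ψ^[n] α = r • (C.c + C.T τ n • C.γ) := by
  induction n with
  | zero => exact ⟨r₀, hr, hα⟩
  | succ n ih =>
    obtain ⟨r, hr, h⟩ := ih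
    refine ⟨r ^ C.D * C.a.eval (C.T τ n), mul_ne_zero (pow_ne_zero _ hr) (hT n), ?_⟩
    rw [Function.iterate_succ_apply', h, C.hom, C.h1]
    have e1 : C.T τ (n + 1) = (C.T τ n) ^ C.e * C.b.eval (C.T τ n) / C.a.eval (C.T τ n) := rfl
    rw [e1]
    funext k
    simp only [Pi.add_apply, Pi.smul_apply, smul_eq_mul]
    have := hT n
    field_simp

theorem Coord.invT {τ : K} (hT0 : ∀ n, C.T τ n ≠ 0) (n : ℕ) :
    (C.T τ (n + 1))⁻¹ =
      (C.T τ n)⁻¹ * C.a'.eval (C.T τ n)⁻¹ / C.b'.eval (C.T τ n)⁻¹ := by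
  set t := C.T τ n with ht
  have h0 : t ≠ 0 := hT0 n
  have e1 : C.c + t • C.γ = t • (C.γ + t⁻¹ • C.c) := by
    rw [smul_add, smul_smul, mul_inv_cancel₀ h0, one_smul, add_comm]
  have e2 := C.h1 t
  rw [e1, C.hom, C.h2] at e2
  have e3 : (t ^ C.D * (t⁻¹ * C.a'.eval t⁻¹)) • C.c + (t ^ C.D * C.b'.eval t⁻¹) • C.γ =
      C.a.eval t • C.c + (t ^ C.e * C.b.eval t) • C.γ := by
    rw [← e2, smul_add, smul_smul, smul_smul, add_comm]
  obtain ⟨h3, h4⟩ := C.uniq e3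
  have e4 : C.T τ (n + 1) = t ^ C.e * C.b.eval t / C.a.eval t := rfl
  rw [e4, inv_div, ← h3, ← h4, mul_div_mul_left _ _ (pow_ne_zero _ h0)]

end abs

section local_

variable {p : ℕ} [Fact p.Prime] {K : Type} [Field K] (σ : K →+* PadicAlgCl p) (C : Coord K)

/-- all data of the coordinate are integral at the place -/
def Good : Prop := ∀ q ∈ ({C.a, C.b, C.a', C.b'} : Set K[X]),
  (∀ n ∈ q.support, ∃ x, σ (q.coeff n) = io p x) ∧ ∃ x, σ (q.eval 0)⁻¹ = io p x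

theorem Good.lift {C : Coord K} (h : Good σ C) {q : K[X]}
    (hq : q ∈ ({C.a, C.b, C.a', C.b'} : Set K[X])) (h0 : q.eval 0 ≠ 0) :
    ∃ A : ℤ_[p][X], A.map (io p) = q.map σ ∧ IsUnit (A.eval 0) := by
  obtain ⟨h1, h2⟩ := h q hq
  obtain ⟨A, hA⟩ := lift_poly σ q h1
  refine ⟨A, hA, lift_unit σ h0 ?_ h2⟩
  exact lift_eval σ hA (τ := 0) (x := 0) (by rw [map_zero, map_zero])

theorem attract {C : Coord K} (h : Good σ C) {τ : K} (hτ : τ ≠ 0) {x : ℤ_[p]}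
    (hx : σ τ = io p x) (hx1 : ‖x‖ < 1) :
    (∀ n, C.T τ n ≠ 0) ∧ (∀ n, C.a.eval (C.T τ n) ≠ 0) ∧
      Tendsto (fun n => σ (C.T τ n)) atTop (𝓝 0) := by
  obtain ⟨A, hA, uA⟩ := h.lift σ (q := C.a) (by simp) C.ha
  obtain ⟨B, hB, uB⟩ := h.lift σ (q := C.b) (by simp) C.hb
  have key : ∀ n, C.T τ n ≠ 0 ∧ ∃ y : ℤ_[p], σ (C.T τ n) = io p y ∧ ‖y‖ ≤ ‖x‖ ^ (n + 1) := by
    intro n
    induction n with
    | zero => exact ⟨hτ, x, hx, by rw [zero_add, pow_one]⟩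
    | succ n ih =>
      obtain ⟨h0, y, hy, hy1⟩ := ih
      have hy2 : ‖y‖ < 1 := hy1.trans_lt (pow_lt_one₀ (norm_nonneg _) hx1 (by omega))
      obtain ⟨s1, s2, x', s3, s4⟩ := att_step σ hA hB uA uB C.he h0 hy hy2
      refine ⟨?_, x', s3, s4.trans ?_⟩
      · show (C.T τ n) ^ C.e * C.b.eval (C.T τ n) / C.a.eval (C.T τ n) ≠ 0
        exact div_ne_zero (mul_ne_zero (pow_ne_zero _ h0) s2) s1
      · have h5 : ‖x‖ ^ (n + 1) ≤ ‖x‖ := pow_le_of_le_one (norm_nonneg _) hx1.le (by omega)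
        calc ‖y‖ * ‖y‖ ≤ ‖x‖ ^ (n + 1) * ‖x‖ := by
              apply mul_le_mul hy1 (hy1.trans h5) (norm_nonneg _) (by positivity)
          _ = ‖x‖ ^ (n + 1 + 1) := (pow_succ _ _).symm
  refine ⟨fun n => (key n).1, fun n => ?_, ?_⟩
  · obtain ⟨h0, y, hy, hy1⟩ := key n
    have hy2 : ‖y‖ < 1 := hy1.trans_lt (pow_lt_one₀ (norm_nonneg _) hx1 (by omega))
    exact (att_step σ hA hB uA uB C.he h0 hy hy2).1
  · rw [tendsto_zero_iff_norm_tendsto_zero]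
    have h1 : Tendsto (fun n : ℕ => ‖x‖ ^ (n + 1)) atTop (𝓝 0) :=
      (tendsto_pow_atTop_nhds_zero_of_lt_one (norm_nonneg _) hx1).comp (tendsto_add_atTop_nat 1)
    refine squeeze_zero (fun n => norm_nonneg _) (fun n => ?_) h1
    obtain ⟨_, y, hy, hy1⟩ := key n
    rw [hy, io_norm]
    exact hy1

theorem recur {C : Coord K} (h : Good σ C) {τ : K}
    (hT0 : ∀ n, C.T τ n ≠ 0) {x : ℤ_[p]} (hx : σ τ⁻¹ = io p x) (hx1 : ‖x‖ < 1) :
    ∃ u : ℕ → ℤ_[p], (∀ n, σ (C.T τ n)⁻¹ = io p (u n)) ∧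
      ∀ n m, ‖u (n + 1) - u (m + 1)‖ = ‖u n - u m‖ := by
  obtain ⟨A, hA, uA⟩ := h.lift σ (q := C.a') (by simp) C.ha'
  obtain ⟨B, hB, uB⟩ := h.lift σ (q := C.b') (by simp) C.hb'
  have hn : ∀ n, ‖(gmap A B)^[n] x‖ < 1 := by
    intro n
    induction n with
    | zero => exact hx1
    | succ n ih => rwa [Function.iterate_succ_apply', gmap_norm uA uB ih]
  refine ⟨fun n => (gmap A B)^[n] x, fun n => ?_, fun n m => ?_⟩
  · induction n with
    | zero => exact hx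
    | succ n ih =>
      rw [C.invT hT0, (rec_step σ hA hB uA uB ih (hn n)).2.2]
      show _ = io p ((gmap A B)^[n + 1] x)
      rw [Function.iterate_succ_apply']
  · show ‖(gmap A B)^[n + 1] x - (gmap A B)^[m + 1] x‖ = _
    rw [Function.iterate_succ_apply', Function.iterate_succ_apply', gmap_isom uA uB (hn n) (hn m)]

end local_

end Pool.Agent.TH61.PCF
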