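import Pool.Agent.TH61.PCF.Alg2
import Pool.Agent.TH61.PCF.Asm

/-!
# Good coordinates
-/

set_option autoImplicit false

namespace Pool.Agent.TH61.PCF

open Polynomial

variable {K : Type} [Field K] {F G : MvPolynomial (Fin 2) K}

/-- divisibility by `X ^ 2` -/
theorem sq_dvd {f : K[X]} (h0 : f.eval 0 = 0) (h1 : (derivative f).eval 0 = 0) : X ^ 2 ∣ f := by
  rw [X_pow_dvd_iff]
  intro k hk
  have : k = 0 ∨ k = 1 := by omega
  rcases this with rfl | rfl
  · rwa [coeff_zero_eq_eval_zero]
  · rw [← coeff_zero_eq_eval_zero, coeff_derivative] at h1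
    simpa using h1

theorem deriv_of_sq_dvd {f : K[X]} (h : X ^ 2 ∣ f) : (derivative f).eval 0 = 0 := by
  obtain ⟨g, rfl⟩ := h
  simp

/-- criticality along a line -/
theorem crit_line [CharZero K] {d : ℕ} (hd : 2 ≤ d) (hF : F.IsHomogeneous d)
    (hG : G.IsHomogeneous d) {c : Fin 2 → K}
    (hJ : MvPolynomial.eval c (MvPolynomial.pderiv 0 F * MvPolynomial.pderiv 1 G -
      MvPolynomial.pderiv 1 F * MvPolynomial.pderiv 0 G) = 0) (w : Fin 2 → K) :
    X ^ 2 ∣ det2 (cc (pm F G K c)) (pm F G K[X] (line c w)) := by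
  have hev : ∀ H : MvPolynomial (Fin 2) K,
      (MvPolynomial.aeval (line c w) H).eval 0 = MvPolynomial.eval c H := by
    intro H
    have h1 := MvPolynomial.comp_aeval_apply (f := line c w) (aeval (0 : K) : K[X] →ₐ[K] K) H
    rw [coe_aeval_eq_eval] at h1
    rw [h1]
    have h2 : (fun i => (line c w i).eval 0) = c := by
      rw [line_eval, zero_smul, add_zero]
    have h3 : ∀ f : Fin 2 → K, MvPolynomial.aeval f H = MvPolynomial.eval f H := by
      intro f
      rw [MvPolynomial.aeval_def]
      rfl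
    rw [h3]
    exact congrArg (fun f => MvPolynomial.eval f H) h2
  have hEF := congrArg (MvPolynomial.eval c) hF.sum_X_mul_pderiv
  have hEG := congrArg (MvPolynomial.eval c) hG.sum_X_mul_pderiv
  simp only [Fin.sum_univ_two, map_add, map_mul, MvPolynomial.eval_X, nsmul_eq_mul, map_natCast]
    at hEF hEG
  rw [map_sub, map_mul, map_mul] at hJ
  have hFc : MvPolynomial.aeval c F = MvPolynomial.eval c F := by
    rw [MvPolynomial.aeval_def]; rfl
  have hGc : MvPolynomial.aeval c G = MvPolynomial.eval c G := by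
    rw [MvPolynomial.aeval_def]; rfl
  have hd0 : (d : K) ≠ 0 := by
    have : d ≠ 0 := by omega
    exact_mod_cast this
  have hdl : ∀ i, derivative (line c w i) = C (w i) := by
    intro i
    simp [line]
  apply sq_dvd
  · show (C (MvPolynomial.aeval c F) * MvPolynomial.aeval (line c w) G -
      C (MvPolynomial.aeval c G) * MvPolynomial.aeval (line c w) F).eval 0 = 0
    rw [eval_sub, eval_mul, eval_mul, eval_C, eval_C, hev, hev, hFc, hGc]
    ring
  · show (derivative (C (MvPolynomial.aeval c F) * MvPolynomial.aeval (line c w) G -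
      C (MvPolynomial.aeval c G) * MvPolynomial.aeval (line c w) F)).eval 0 = 0
    rw [derivative_sub, derivative_C_mul, derivative_C_mul, derivative_line, derivative_line]
    simp only [eval_sub, eval_mul, eval_add, eval_C, hev, hdl, hFc, hGc]
    apply mul_left_cancel₀ hd0
    linear_combination (-(MvPolynomial.eval c (MvPolynomial.pderiv 0 G)) * w 0 -
      (MvPolynomial.eval c (MvPolynomial.pderiv 1 G)) * w 1) * hEF +
      ((MvPolynomial.eval c (MvPolynomial.pderiv 0 F)) * w 0 +
      (MvPolynomial.eval c (MvPolynomial.pderiv 1 F)) * w 1) * hEG +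
      (c 0 * w 1 - c 1 * w 0) * hJ

/-- a periodic critical point is superattracting -/
theorem superattracting [CharZero K] {d M : ℕ} (hd : 2 ≤ d) (hF : F.IsHomogeneous d)
    (hG : G.IsHomogeneous d)
    (h0 : ∀ v : Fin 2 → K, MvPolynomial.eval v F = 0 → MvPolynomial.eval v G = 0 → v = 0)
    {c : Fin 2 → K} (hc0 : c ≠ 0)
    (hJ : MvPolynomial.eval c (MvPolynomial.pderiv 0 F * MvPolynomial.pderiv 1 G -
      MvPolynomial.pderiv 1 F * MvPolynomial.pderiv 0 G) = 0) {t : K}
    (hc : (pm F G K)^[M + 1] c = t • c) (w : Fin 2 → K) :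
    X ^ 2 ∣ det2 (cc c) ((pm F G K[X])^[M + 1] (line c w)) := by
  set y := pm F G K c with hy
  have hy0 : y ≠ 0 := pm_iter_ne h0 1 c hc0
  have hcr := crit_line hd hF hG hJ w
  rw [← hy] at hcr
  set V := pm F G K[X] (line c w) with hV
  -- the factor
  obtain ⟨u, hu⟩ : ∃ u : K[X], ∀ i, X ^ 2 ∣ V i - (u • cc y) i := by
    by_cases h : y 0 = 0
    · have h1 : y 1 ≠ 0 := by
        intro h1
        apply hy0
        funext i
        fin_cases i
        · exact h
        · exact h1
      refine ⟨C (y 1)⁻¹ * V 1, fun i => ?_⟩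
      have hC : C (y 1)⁻¹ * C (y 1) = (1 : K[X]) := by
        rw [← C_mul, inv_mul_cancel₀ h1, C_1]
      fin_cases i
      · have e : V 0 - ((C (y 1)⁻¹ * V 1) • cc y) 0 = C (y 1)⁻¹ * (-(det2 (cc y) V)) := by
          simp only [Pi.smul_apply, smul_eq_mul, cc, det2]
          linear_combination -(V 0) * hC
        exact e ▸ (hcr.neg_right.mul_left _)
      · have e : V 1 - ((C (y 1)⁻¹ * V 1) • cc y) 1 = 0 := by
          simp only [Pi.smul_apply, smul_eq_mul, cc]
          linear_combination -(V 1) * hC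
        exact e ▸ dvd_zero _
    · refine ⟨C (y 0)⁻¹ * V 0, fun i => ?_⟩
      have hC : C (y 0)⁻¹ * C (y 0) = (1 : K[X]) := by
        rw [← C_mul, inv_mul_cancel₀ h, C_1]
      fin_cases i
      · have e : V 0 - ((C (y 0)⁻¹ * V 0) • cc y) 0 = 0 := by
          simp only [Pi.smul_apply, smul_eq_mul, cc]
          linear_combination -(V 0) * hC
        exact e ▸ dvd_zero _
      · have e : V 1 - ((C (y 0)⁻¹ * V 0) • cc y) 1 = C (y 0)⁻¹ * (det2 (cc y) V) := by
          simp only [Pi.smul_apply, smul_eq_mul, cc, det2]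
          linear_combination -(V 1) * hC
        exact e ▸ (hcr.mul_left _)
  have h1 := pm_iter_congr (F := F) (G := G) M V (u • cc y) hu
  rw [pm_iter_smul hF hG, iter_const] at h1
  have e1 : (pm F G K[X])^[M + 1] (line c w) = (pm F G K[X])^[M] V := by
    rw [Function.iterate_succ_apply]
  have e2 : (pm F G K)^[M] y = t • c := by
    rw [← hc, Function.iterate_succ_apply]
  rw [e2] at h1
  rw [e1]
  set W := (pm F G K[X])^[M] V with hW
  have e3 : det2 (cc c) W = C (c 0) * (W 1 - (u ^ d ^ M • cc (t • c)) 1) -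
      C (c 1) * (W 0 - (u ^ d ^ M • cc (t • c)) 0) := by
    simp only [det2, cc, Pi.smul_apply, smul_eq_mul, C_mul]
    ring
  rw [e3]
  exact dvd_sub ((h1 1).mul_left _) ((h1 0).mul_left _)

end Pool.Agent.TH61.PCF
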