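import Pool.Agent.TH61.PCF.Alg3

/-!
# Good coordinates: conclusion
-/

set_option autoImplicit false

namespace Pool.Agent.TH61.PCF

open Polynomial

variable {K : Type} [Field K] {F G : MvPolynomial (Fin 2) K}

/-- the second fixed point -/
theorem exists_gamma [IsAlgClosed K] [CharZero K] {d M : ℕ} (hd : 2 ≤ d)
    (hF : F.IsHomogeneous d) (hG : G.IsHomogeneous d)
    (h0 : ∀ v : Fin 2 → K, MvPolynomial.eval v F = 0 → MvPolynomial.eval v G = 0 → v = 0)
    {c : Fin 2 → K} (hc0 : c ≠ 0) {t : K} (ht : t ≠ 0)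
    (hc : (pm F G K)^[M] c = t • c)
    (hSA : ∀ w, X ^ 2 ∣ det2 (cc c) ((pm F G K[X])^[M] (line c w))) :
    ∃ γ : Fin 2 → K, det2 c γ ≠ 0 ∧ (∃ t' : K, t' ≠ 0 ∧ (pm F G K)^[M] γ = t' • γ) ∧
      ¬ X ^ 2 ∣ det2 (cc γ) ((pm F G K[X])^[M] (line γ c)) := by
  have : Infinite K := IsAlgClosed.instInfinite
  obtain ⟨w, hcw, hw⟩ := exists_nonfixed hc0 ht hc hSA
  obtain ⟨x, hx, hx'⟩ := exists_root hd hF hG h0 hcw hw
  set V := (pm F G K[X])^[M] (line c w) with hV
  set γ : Fin 2 → K := c + x • w with hγ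
  have hqe : det2 (line c w) V = det2 (cc c) V + X * det2 (cc w) V := by
    simp only [det2, line, cc]
    ring
  have hx0 : x ≠ 0 := by
    rintro rfl
    apply hx'
    rw [hqe, derivative_add, eval_add, deriv_of_sq_dvd (hSA w), derivative_mul, derivative_X]
    simp
  have hcγ : det2 c γ = x * det2 c w := by
    simp only [hγ, det2, Pi.add_apply, Pi.smul_apply, smul_eq_mul]
    ring
  have hcγ0 : det2 c γ ≠ 0 := by
    rw [hcγ]
    exact mul_ne_zero hx0 hcw
  have hγ0 : γ ≠ 0 := by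
    intro h
    apply hcγ0
    rw [h]
    simp [det2]
  have hVx : (fun i => (V i).eval x) = (pm F G K)^[M] γ := by
    funext i
    rw [hV, iter_eval, line_eval]
  rw [det_eval, line_eval, hVx] at hx
  obtain ⟨t', ht'⟩ := parallel hγ0 hx
  have ht'0 : t' ≠ 0 := by
    rintro rfl
    rw [zero_smul] at ht'
    exact pm_iter_ne h0 M γ hγ0 ht'
  refine ⟨γ, hcγ0, ⟨t', ht'0, ht'⟩, fun hdvd => hx' ?_⟩
  -- the direction `w`
  set U := (pm F G K[X])^[M] (line γ c) with hU
  have hw' : ∀ i, w i = x⁻¹ * (γ i - c i) := by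
    intro i
    simp only [hγ, Pi.add_apply, Pi.smul_apply, smul_eq_mul]
    field_simp
    ring
  set y : K[X] := C x⁻¹ * X with hy
  have hcong : ∀ i, X ^ 2 ∣ line γ w i - ((1 + y) • (fun j => C (γ j) - y * C (c j))) i := by
    intro i
    have e : line γ w i - ((1 + y) • (fun j => C (γ j) - y * C (c j))) i =
        X ^ 2 * (C x⁻¹ * C x⁻¹ * C (c i)) := by
      simp only [line, Pi.smul_apply, smul_eq_mul, hw' i, hy, C_mul, C_sub]
      ring
    rw [e]
    exact dvd_mul_right _ _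
  have h1 := pm_iter_congr (F := F) (G := G) M _ _ hcong
  rw [pm_iter_smul hF hG] at h1
  -- the substitution
  have h2 : (pm F G K[X])^[M] (fun j => C (γ j) - y * C (c j)) = fun i => (U i).comp (-y) := by
    funext i
    rw [hU, iter_comp]
    refine congrFun (congrArg _ (_root_.funext fun j => ?_)) i
    simp only [line, add_comp, C_comp, mul_comp, X_comp]
    ring
  rw [h2] at h1
  have h3 : X ^ 2 ∣ (det2 (cc γ) U).comp (-y) := by
    obtain ⟨g, hg⟩ := hdvd
    rw [hg, mul_comp, pow_comp, X_comp]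
    refine Dvd.dvd.mul_right ?_ _
    rw [hy]
    exact ⟨C x⁻¹ * C x⁻¹, by ring⟩
  set W := (pm F G K[X])^[M] (line γ w) with hW
  have h4 : X ^ 2 ∣ det2 (cc γ) W := by
    have e : det2 (cc γ) W = C (γ 0) * (W 1 - ((1 + y) ^ d ^ M • fun i => (U i).comp (-y)) 1) -
        C (γ 1) * (W 0 - ((1 + y) ^ d ^ M • fun i => (U i).comp (-y)) 0) +
        (1 + y) ^ d ^ M * (det2 (cc γ) U).comp (-y) := by
      simp only [det2, cc, Pi.smul_apply, smul_eq_mul, sub_comp, mul_comp, C_comp]
      ring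
    rw [e]
    exact dvd_add (dvd_sub ((h1 1).mul_left _) ((h1 0).mul_left _)) (h3.mul_left _)
  have h5 : W = fun i => (V i).comp (X + C x) := by
    funext i
    rw [hW, hV, iter_comp]
    refine congrFun (congrArg _ (_root_.funext fun j => ?_)) i
    simp only [line, add_comp, C_comp, mul_comp, X_comp, hγ, Pi.add_apply, Pi.smul_apply,
      smul_eq_mul, C_add, C_mul]
    ring
  have h6 : det2 (cc γ) W = (det2 (line c w) V).comp (X + C x) -
      X * (det2 (cc w) V).comp (X + C x) := by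
    rw [h5]
    simp only [det2, cc, line, sub_comp, mul_comp, add_comp, C_comp, X_comp, hγ, Pi.add_apply,
      Pi.smul_apply, smul_eq_mul, C_add, C_mul]
    ring
  have h7 := deriv_of_sq_dvd h4
  rw [h6, derivative_sub, derivative_comp, derivative_mul, derivative_X] at h7
  simp only [eval_sub, eval_mul, eval_add, eval_comp, eval_X, eval_C, zero_add, zero_mul,
    add_zero, one_mul, derivative_add, derivative_X, derivative_C] at h7
  linear_combination h7

theorem cramer {R : Type} [CommRing R] (u v w : Fin 2 → R) (i : Fin 2) :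
    det2 u v * w i = det2 w v * u i + det2 u w * v i := by
  fin_cases i
  · simp only [Fin.zero_eta, det2]; ring
  · simp only [Fin.mk_one, det2]; ring

/-- good coordinates for an iterate -/
theorem exists_coord [IsAlgClosed K] [CharZero K] {d M : ℕ} (hd : 2 ≤ d)
    (hF : F.IsHomogeneous d) (hG : G.IsHomogeneous d)
    (h0 : ∀ v : Fin 2 → K, MvPolynomial.eval v F = 0 → MvPolynomial.eval v G = 0 → v = 0)
    {c : Fin 2 → K} (hc0 : c ≠ 0) {t : K} (ht : t ≠ 0)
    (hc : (pm F G K)^[M] c = t • c)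
    (hSA : ∀ w, X ^ 2 ∣ det2 (cc c) ((pm F G K[X])^[M] (line c w))) :
    ∃ C : Coord K, C.Ψ = (pm F G K)^[M] := by
  obtain ⟨γ, hcγ, ⟨t', ht'0, ht'⟩, hnd⟩ := exists_gamma hd hF hG h0 hc0 ht hc hSA
  set Δ := det2 c γ with hΔ
  have hΔ' : det2 γ c = -Δ := by simp only [hΔ, det2]; ring
  set V := (pm F G K[X])^[M] (line c γ) with hV
  set U := (pm F G K[X])^[M] (line γ c) with hU
  have hVτ : ∀ τ : K, (fun i => (V i).eval τ) = (pm F G K)^[M] (c + τ • γ) := by
    intro τ
    funext i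
    rw [hV, iter_eval, line_eval]
  have hUτ : ∀ τ : K, (fun i => (U i).eval τ) = (pm F G K)^[M] (γ + τ • c) := by
    intro τ
    funext i
    rw [hU, iter_eval, line_eval]
  -- the polynomials at `c`
  set β : K[X] := C Δ⁻¹ * det2 (cc c) V with hβ
  have hlγ : ∀ i, (line c γ i).natDegree ≤ 1 := by
    intro i
    unfold line
    compute_degree
  obtain ⟨-, hco⟩ := pm_iter_deg hF hG M hlγ
  have hl1 : (fun i => (line c γ i).coeff 1) = γ := by
    funext i
    simp [line, coeff_C]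
  rw [hl1, ← hV, ht'] at hco
  have hβco : β.coeff (d ^ M) = t' := by
    have e0 := congrFun hco 0
    have e1 := congrFun hco 1
    simp only [Pi.smul_apply, smul_eq_mul] at e0 e1
    rw [hβ, coeff_C_mul]
    unfold det2 cc
    rw [coeff_sub, coeff_C_mul, coeff_C_mul, e0, e1]
    have e2 : c 0 * (t' * γ 1) - c 1 * (t' * γ 0) = t' * Δ := by
      simp only [hΔ, det2]; ring
    rw [e2]
    field_simp
  have hβ0 : β ≠ 0 := by
    intro h
    rw [h, coeff_zero] at hβco
    exact ht'0 hβco.symm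
  obtain ⟨b, hb, hnb⟩ := exists_eq_pow_rootMultiplicity_mul_and_not_dvd β hβ0 0
  rw [C_0, sub_zero] at hb hnb
  set e := β.rootMultiplicity 0 with he
  have he2 : 2 ≤ e := by
    rw [he, le_rootMultiplicity_iff hβ0, C_0, sub_zero]
    exact (hSA γ).mul_left _
  have hb0 : b.eval 0 ≠ 0 := by
    intro h
    apply hnb
    rw [X_dvd_iff, coeff_zero_eq_eval_zero]
    exact h
  -- the polynomials at `γ`
  have hδ0 : (det2 (cc γ) U).eval 0 = 0 := by
    rw [det_eval, hUτ, zero_smul, add_zero, ht']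
    simp only [cc, eval_C, det2, Pi.smul_apply, smul_eq_mul]
    ring
  obtain ⟨δ, hδ⟩ : (X : K[X]) ∣ det2 (cc γ) U := by
    rw [X_dvd_iff, coeff_zero_eq_eval_zero]
    exact hδ0
  have hδ1 : δ.eval 0 ≠ 0 := by
    intro h
    apply hnd
    have : (X : K[X]) ∣ δ := by
      rw [X_dvd_iff, coeff_zero_eq_eval_zero]
      exact h
    obtain ⟨g, hg⟩ := this
    rw [hδ, hg]
    exact ⟨g, by ring⟩
  refine ⟨⟨(pm F G K)^[M], d ^ M, c, γ, C Δ⁻¹ * det2 V (cc γ), b, C (-Δ)⁻¹ * δ,
    C (-Δ)⁻¹ * det2 U (cc c), e, he2, hcγ, fun l v => pm_iter_smul hF hG M l v, ?_, ?_, ?_, hb0,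
    ?_, ?_⟩, rfl⟩
  · intro τ
    rw [← hVτ]
    have e1 : τ ^ e * b.eval τ = Δ⁻¹ * det2 c (fun i => (V i).eval τ) := by
      have h1 : β.eval τ = τ ^ e * b.eval τ := by
        conv_lhs => rw [hb]
        rw [eval_mul, eval_pow, eval_X]
      rw [← h1, hβ, eval_mul, eval_C, det_eval]
      simp only [cc, eval_C]
    rw [e1, eval_mul, eval_C, det_eval]
    funext i
    simp only [Pi.add_apply, Pi.smul_apply, smul_eq_mul, cc, eval_C]
    have e2 := cramer c γ (fun i => (V i).eval τ) i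
    apply mul_left_cancel₀ hcγ
    rw [← hΔ] at e2
    have e3 : Δ * Δ⁻¹ = 1 := mul_inv_cancel₀ hcγ
    linear_combination e2 - (det2 (fun i => (V i).eval τ) γ * c i +
      det2 c (fun i => (V i).eval τ) * γ i) * e3
  · intro τ
    rw [← hUτ]
    have e1 : τ * (C (-Δ)⁻¹ * δ).eval τ = (-Δ)⁻¹ * det2 γ (fun i => (U i).eval τ) := by
      have h1 : (det2 (cc γ) U).eval τ = τ * δ.eval τ := by rw [hδ, eval_mul, eval_X]
      rw [det_eval] at h1
      simp only [cc, eval_C] at h1
      rw [eval_mul, eval_C, h1]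
      ring
    rw [e1, eval_mul, eval_C, det_eval]
    funext i
    simp only [Pi.add_apply, Pi.smul_apply, smul_eq_mul, cc, eval_C]
    have e2 := cramer γ c (fun i => (U i).eval τ) i
    rw [hΔ'] at e2
    apply mul_left_cancel₀ (neg_ne_zero.2 hcγ)
    have e3 : (-Δ) * (-Δ)⁻¹ = 1 := mul_inv_cancel₀ (neg_ne_zero.2 hcγ)
    linear_combination e2 - (det2 (fun i => (U i).eval τ) c * γ i +
      det2 γ (fun i => (U i).eval τ) * c i) * e3
  · rw [eval_mul, eval_C, det_eval, hVτ, zero_smul, add_zero, hc]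
    refine mul_ne_zero (inv_ne_zero hcγ) ?_
    have e1 : det2 (t • c) (fun i => (cc γ i).eval 0) = t * Δ := by
      simp only [hΔ, det2, cc, eval_C, Pi.smul_apply, smul_eq_mul]
      ring
    rw [e1]
    exact mul_ne_zero ht hcγ
  · rw [eval_mul, eval_C]
    exact mul_ne_zero (inv_ne_zero (neg_ne_zero.2 hcγ)) hδ1
  · rw [eval_mul, eval_C, det_eval, hUτ, zero_smul, add_zero, ht']
    refine mul_ne_zero (inv_ne_zero (neg_ne_zero.2 hcγ)) ?_
    have e1 : det2 (t' • γ) (fun i => (cc c i).eval 0) = -(t' * Δ) := by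
      simp only [hΔ, det2, cc, eval_C, Pi.smul_apply, smul_eq_mul]
      ring
    rw [e1, neg_ne_zero]
    exact mul_ne_zero ht'0 hcγ

end Pool.Agent.TH61.PCF
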