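import Pool.Agent.TH61.PCF.Asm

/-!
# The dense orbit
-/

set_option autoImplicit false

namespace Pool.Agent.TH61.PCF

open Polynomial Filter Topology

theorem aeval_eq_ev {ι K : Type} [Field K] (f : ι → K) (P : MvPolynomial ι K) :
    MvPolynomial.aeval f P = MvPolynomial.eval f P := by
  rw [MvPolynomial.aeval_def]
  rfl

theorem dense (N : ℕ) (C : Fin N → Coord (AlgebraicClosure ℚ)) :
    ∃ α : Fin N → Fin 2 → AlgebraicClosure ℚ, (∀ i, α i ≠ 0) ∧
      ∀ P : MvPolynomial (Fin N × Fin 2) (AlgebraicClosure ℚ),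
        (∀ (n : ℕ) (t : Fin N → AlgebraicClosure ℚ), (∀ i, t i ≠ 0) →
          MvPolynomial.eval (fun q : Fin N × Fin 2 => t q.1 * ((C q.1).Ψ^[n] (α q.1)) q.2) P = 0) →
        P = 0 := by
  classical
  -- the data
  let Zi : Coord (AlgebraicClosure ℚ) → Finset (AlgebraicClosure ℚ) := fun C =>
    ({C.a, C.b, C.a', C.b'} : Finset (AlgebraicClosure ℚ)[X]).biUnion
      fun q => insert (q.eval 0)⁻¹ (q.support.image q.coeff)
  obtain ⟨p, hpinj, hpl⟩ := exists_places (Finset.univ.biUnion fun i => Zi (C i))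
  choose hp σ hσ using hpl
  have hgood : ∀ i j, Good (σ i) (C j) := by
    intro i j q hq
    have hq' : q ∈ ({(C j).a, (C j).b, (C j).a', (C j).b'} : Finset (AlgebraicClosure ℚ)[X]) := by
      simpa using hq
    have hmem : ∀ z, z ∈ insert (q.eval 0)⁻¹ (q.support.image q.coeff) →
        ∃ x : ℤ_[p i], σ i z = io (p i) x := by
      intro z hz
      exact hσ i z (Finset.mem_biUnion.2 ⟨j, Finset.mem_univ _,
        Finset.mem_biUnion.2 ⟨q, hq', hz⟩⟩)
    exact ⟨fun n hn => hmem _ (Finset.mem_insert_of_mem (Finset.mem_image_of_mem _ hn)),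
      hmem _ (Finset.mem_insert_self _ _)⟩
  -- the starting points
  let Q : Fin N → ℕ := fun i => ∏ j ∈ Finset.univ.erase i, p (j : ℕ)
  let τ : Fin N → AlgebraicClosure ℚ := fun i => (p (i : ℕ) : AlgebraicClosure ℚ) / (Q i : ℕ)
  have hQ0 : ∀ i, (Q i : AlgebraicClosure ℚ) ≠ 0 := by
    intro i
    have : Q i ≠ 0 := Finset.prod_ne_zero_iff.2 fun j _ => (hp (j : ℕ)).out.ne_zero
    exact_mod_cast this
  have hp0 : ∀ i : ℕ, (p i : AlgebraicClosure ℚ) ≠ 0 := by
    intro i
    exact_mod_cast (hp i).out.ne_zero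
  have hτ0 : ∀ i, τ i ≠ 0 := fun i => div_ne_zero (hp0 _) (hQ0 i)
  -- units
  have hunit : ∀ (i : ℕ) (n : ℕ), ¬ p i ∣ n → IsUnit (n : ℤ_[p i]) := by
    intro i n hn
    rw [PadicInt.isUnit_iff]
    refine le_antisymm (PadicInt.norm_le_one _) (not_lt.1 fun hlt => hn ?_)
    have h1 : ‖((n : ℤ) : ℤ_[p i])‖ < 1 := by rwa [Int.cast_natCast]
    exact_mod_cast (PadicInt.norm_int_lt_one_iff_dvd _).1 h1
  have hlt : ∀ (i : ℕ) (n : ℕ), p i ∣ n → ‖(n : ℤ_[p i])‖ < 1 := by
    intro i n hn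
    have := (PadicInt.norm_int_lt_one_iff_dvd (p := p i) (n : ℤ)).2 (by exact_mod_cast hn)
    rwa [Int.cast_natCast] at this
  have hfrac : ∀ (i : ℕ) (n d : ℕ), p i ∣ n → ¬ p i ∣ d →
      ∃ x : ℤ_[p i], σ i ((n : AlgebraicClosure ℚ) / d) = io (p i) x ∧ ‖x‖ < 1 := by
    intro i n d hn hd
    have hu := hunit i d hd
    refine ⟨(n : ℤ_[p i]) * Ring.inverse (d : ℤ_[p i]), ?_, ?_⟩
    · have hd0 : σ i (d : AlgebraicClosure ℚ) ≠ 0 := by
        rw [_root_.map_ne_zero]
        intro h0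
        apply hd
        have : d = 0 := by exact_mod_cast h0
        rw [this]
        exact dvd_zero _
      rw [map_div₀, div_eq_iff hd0, map_natCast, map_natCast, ← map_natCast (io (p i)) d,
        ← map_mul, mul_assoc, Ring.inverse_mul_cancel _ hu, mul_one, map_natCast]
    · rw [norm_mul]
      exact (mul_le_of_le_one_right (norm_nonneg _) (PadicInt.norm_le_one _)).trans_lt (hlt i n hn)
  have hpij : ∀ i j : ℕ, i ≠ j → ¬ p i ∣ p j := by
    intro i j hij h
    exact hij (hpinj ((Nat.prime_dvd_prime_iff_eq (hp i).out (hp j).out).1 h))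
  have hpQ : ∀ i : Fin N, ¬ p (i : ℕ) ∣ Q i := by
    intro i h
    obtain ⟨j, hj, hd⟩ := ((hp (i : ℕ)).out.prime.dvd_finsetProd_iff _).1 h
    exact hpij i j (fun h => (Finset.ne_of_mem_erase hj) (Fin.ext h).symm) hd
  have hpQ' : ∀ i j : Fin N, i ≠ j → p (i : ℕ) ∣ Q j := by
    intro i j hij
    exact Finset.dvd_prod_of_mem _ (Finset.mem_erase.2 ⟨hij, Finset.mem_univ _⟩)
  -- attraction
  have hatt : ∀ i : Fin N, (∀ n, (C i).T (τ i) n ≠ 0) ∧ (∀ n, (C i).a.eval ((C i).T (τ i) n) ≠ 0) ∧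
      Tendsto (fun n => σ i ((C i).T (τ i) n)) atTop (𝓝 0) := by
    intro i
    obtain ⟨x, hx, hx1⟩ := hfrac i (p i) (Q i) (dvd_refl _) (hpQ i)
    exact attract (σ i) (hgood i i) (hτ0 i) hx hx1
  -- recurrence
  have hrec : ∀ i : Fin N, ∃ M : ℕ → ℕ, Tendsto M atTop atTop ∧ ∀ m (j : Fin N), i < j →
      Tendsto (fun k => σ i ((C j).T (τ j) (m + M k))) atTop (𝓝 (σ i ((C j).T (τ j) m))) := by
    intro i
    have hj : ∀ j : Fin N, ∃ u : ℕ → ℤ_[p i],
        (i ≠ j → ∀ n, σ i ((C j).T (τ j) n)⁻¹ = io (p i) (u n)) ∧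
        ∀ n m, ‖u (n + 1) - u (m + 1)‖ = ‖u n - u m‖ := by
      intro j
      by_cases hij : i = j
      · exact ⟨fun _ => 0, fun h => absurd hij h, fun n m => rfl⟩
      · obtain ⟨x, hx, hx1⟩ := hfrac i (Q j) (p j) (hpQ' i j hij)
          (hpij i j fun h => hij (Fin.ext h))
        obtain ⟨u, hu1, hu2⟩ := recur (σ i) (hgood i j) (hatt j).1 (τ := τ j) (x := x)
          (by rw [← hx, inv_div]) hx1
        exact ⟨u, fun _ => hu1, hu2⟩
    choose u hu1 hu2 using hj
    obtain ⟨M, hM1, hM2⟩ := recurrent (X := Fin N → ℤ_[p i]) (fun n j => u j n) (by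
      intro n m
      rw [dist_pi_def, dist_pi_def]
      congr 2
      funext j
      apply NNReal.eq
      rw [coe_nndist, coe_nndist, dist_eq_norm, dist_eq_norm]
      exact hu2 j n m)
    refine ⟨M, hM1, fun m j hij => ?_⟩
    have h1 := (tendsto_pi_nhds.1 (hM2 m)) j
    have h2 : Tendsto (fun k => io (p i) (u j (m + M k))) atTop (𝓝 (io (p i) (u j m))) :=
      (io_cont.tendsto _).comp h1
    have h3 : io (p i) (u j m) ≠ 0 := by
      rw [← hu1 j hij.ne m, _root_.map_ne_zero]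
      exact inv_ne_zero ((hatt j).1 m)
    have h4 := h2.inv₀ h3
    refine (h4.congr fun k => ?_).trans ?_
    · rw [← hu1 j hij.ne, ← map_inv₀, inv_inv]
    · rw [← hu1 j hij.ne, ← map_inv₀, inv_inv]
  have hdens := density N (fun n i => (C i).T (τ i) n) (by
    intro i
    obtain ⟨M, hM1, hM2⟩ := hrec i
    exact ⟨PadicAlgCl (p i), inferInstance, σ i, M, (hatt i).1, (hatt i).2.2, hM1, hM2⟩)
  have horb : ∀ (i : Fin N) (n : ℕ), ∃ r : AlgebraicClosure ℚ, r ≠ 0 ∧
      (C i).Ψ^[n] ((C i).c + τ i • (C i).γ) = r • ((C i).c + (C i).T (τ i) n • (C i).γ) :=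
    fun i n => (C i).orbit (hatt i).2.1 one_ne_zero (one_smul _ _).symm n
  refine ⟨fun i => (C i).c + τ i • (C i).γ, fun i h0 => ?_, fun P hP => ?_⟩
  · have h1 : (1 : AlgebraicClosure ℚ) • (C i).c + τ i • (C i).γ =
        (0 : AlgebraicClosure ℚ) • (C i).c + (0 : AlgebraicClosure ℚ) • (C i).γ := by
      rw [one_smul, zero_smul, zero_smul, add_zero]
      exact h0
    exact one_ne_zero ((C i).uniq h1).1
  choose r hr0 hr using horb
  let L : Fin N → MvPolynomial (Fin N × Fin 2) (AlgebraicClosure ℚ) := fun i =>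
    MvPolynomial.X (i, 0) * MvPolynomial.C ((C i).γ 1) -
      MvPolynomial.X (i, 1) * MvPolynomial.C ((C i).γ 0)
  have hL : ∀ i (z : Fin N × Fin 2 → AlgebraicClosure ℚ), MvPolynomial.eval z (L i) =
      z (i, 0) * (C i).γ 1 - z (i, 1) * (C i).γ 0 := by
    intro i z
    simp [L]
  have hprod : P * ∏ i, L i = 0 := by
    apply MvPolynomial.funext
    intro z
    rw [map_mul, map_prod, map_zero]
    by_cases hz : ∃ i, MvPolynomial.eval z (L i) = 0
    · obtain ⟨i, hi⟩ := hz
      rw [Finset.prod_eq_zero (Finset.mem_univ i) hi, mul_zero]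
    push Not at hz
    -- coordinates
    let dt : Fin N → AlgebraicClosure ℚ := fun i => (C i).c 0 * (C i).γ 1 - (C i).c 1 * (C i).γ 0
    let s : Fin N → AlgebraicClosure ℚ := fun i => MvPolynomial.eval z (L i) / dt i
    let w : Fin N → AlgebraicClosure ℚ := fun i =>
      ((C i).c 0 * z (i, 1) - (C i).c 1 * z (i, 0)) / dt i / s i
    have hdt : ∀ i, dt i ≠ 0 := fun i => (C i).hind
    have hs0 : ∀ i, s i ≠ 0 := fun i => div_ne_zero (hz i) (hdt i)
    have hz1 : ∀ q : Fin N × Fin 2, z q = s q.1 * ((C q.1).c q.2 + w q.1 * (C q.1).γ q.2) := by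
      rintro ⟨i, k⟩
      have hd := hdt i
      have hs := hs0 i
      have e1 : s i * (dt i) = z (i, 0) * (C i).γ 1 - z (i, 1) * (C i).γ 0 := by
        rw [← hL]
        exact div_mul_cancel₀ _ hd
      have e2 : s i * w i * dt i = (C i).c 0 * z (i, 1) - (C i).c 1 * z (i, 0) := by
        simp only [w]
        field_simp
      show z (i, k) = s i * ((C i).c k + w i * (C i).γ k)
      apply mul_right_cancel₀ hd
      have e3 : dt i = (C i).c 0 * (C i).γ 1 - (C i).c 1 * (C i).γ 0 := rfl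
      fin_cases k
      · show z (i, 0) * dt i = s i * ((C i).c 0 + w i * (C i).γ 0) * dt i
        linear_combination -(C i).c 0 * e1 - (C i).γ 0 * e2 + z (i, 0) * e3
      · show z (i, 1) * dt i = s i * ((C i).c 1 + w i * (C i).γ 1) * dt i
        linear_combination -(C i).c 1 * e1 - (C i).γ 1 * e2 + z (i, 1) * e3
    set R : MvPolynomial (Fin N) (AlgebraicClosure ℚ) :=
      MvPolynomial.aeval (fun q : Fin N × Fin 2 => MvPolynomial.C (s q.1) *
        (MvPolynomial.C ((C q.1).c q.2) + MvPolynomial.X q.1 * MvPolynomial.C ((C q.1).γ q.2))) P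
      with hR
    have hRe : ∀ t : Fin N → AlgebraicClosure ℚ, MvPolynomial.eval t R =
        MvPolynomial.eval (fun q : Fin N × Fin 2 =>
          s q.1 * ((C q.1).c q.2 + t q.1 * (C q.1).γ q.2)) P := by
      intro t
      rw [hR, ← aeval_eq_ev, ← aeval_eq_ev]
      have := MvPolynomial.comp_aeval_apply (R := AlgebraicClosure ℚ)
        (f := fun q : Fin N × Fin 2 => MvPolynomial.C (s q.1) *
        (MvPolynomial.C ((C q.1).c q.2) + MvPolynomial.X q.1 * MvPolynomial.C ((C q.1).γ q.2)))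
        (MvPolynomial.aeval t) P
      refine this.trans ?_
      congr 2
      funext q
      simp [aeval_eq_ev]
    have hR0 : R = 0 := by
      apply hdens
      intro n
      rw [hRe]
      have := hP n (fun i => s i / r i n) (fun i => div_ne_zero (hs0 i) (hr0 i n))
      rw [← this]
      congr 2
      funext q
      rw [hr q.1 n]
      simp only [Pi.smul_apply, Pi.add_apply, smul_eq_mul]
      have := hr0 q.1 n
      field_simp
    have e4 : MvPolynomial.eval z P = 0 := by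
      have h1 := hRe w
      rw [hR0, map_zero] at h1
      rw [h1]
      congr 2
      funext q
      exact hz1 q
    rw [e4, zero_mul]
  refine (mul_eq_zero.1 hprod).resolve_right ?_
  rw [← ne_eq, Finset.prod_ne_zero_iff]
  intro i _ h0
  have h1 := hL i (fun q => (C i).c q.2)
  rw [h0, map_zero] at h1
  exact (C i).hind h1.symm

end Pool.Agent.TH61.PCF
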