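import Mathlib

/-!
# Embeddings of number fields in `p`-adic fields
-/

set_option autoImplicit false

namespace Pool.Agent.TH61.PCF

open Polynomial

/-- primes dividing values of an integer polynomial -/
theorem exists_prime_dvd (f : ℤ[X]) (hf : 0 < f.natDegree) (B : ℕ) :
    ∃ p : ℕ, p.Prime ∧ B < p ∧ ∃ a : ℤ, (p : ℤ) ∣ f.eval a := by
  by_cases h0 : f.eval 0 = 0
  · obtain ⟨p, hp, hp'⟩ := Nat.exists_infinite_primes (B + 1)
    exact ⟨p, hp', by omega, 0, by rw [h0]; exact dvd_zero _⟩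
  set c := f.eval 0 with hc
  have hfc : ∀ e : ℤ, f - C e ≠ 0 := by
    intro e h
    rw [sub_eq_zero] at h
    rw [h, natDegree_C] at hf
    exact lt_irrefl _ hf
  have hg : (f - C c) * (f - C (-c)) ≠ 0 := mul_ne_zero (hfc _) (hfc _)
  have hB : (B.factorial : ℤ) ≠ 0 := by exact_mod_cast B.factorial_ne_zero
  obtain ⟨k, hk⟩ : ∃ k : ℕ, ((f - C c) * (f - C (-c))).eval (c * B.factorial * k) ≠ 0 := by
    by_contra hcon
    push Not at hcon
    apply hg
    apply Polynomial.eq_zero_of_infinite_isRoot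
    have hinj : Function.Injective fun k : ℕ => c * B.factorial * (k : ℤ) := by
      intro a b hab
      have := mul_left_cancel₀ (mul_ne_zero h0 hB) hab
      exact_mod_cast this
    refine (Set.infinite_range_of_injective hinj).mono ?_
    rintro _ ⟨k, rfl⟩
    exact hcon k
  rw [eval_mul, mul_ne_zero_iff, eval_sub, eval_sub, eval_C, eval_C] at hk
  obtain ⟨q, hq⟩ := f.sub_dvd_eval_sub (c * B.factorial * k) 0
  rw [sub_zero, ← hc] at hq
  have hval : f.eval (c * B.factorial * k) = c * (1 + B.factorial * (k * q)) := by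
    linear_combination hq
  have hm : (1 + (B.factorial : ℤ) * (k * q)).natAbs ≠ 1 := by
    intro h
    rcases Int.natAbs_eq_iff.1 h with h | h
    · apply hk.1
      rw [hval, h]
      push_cast
      ring
    · apply hk.2
      rw [hval, h]
      push_cast
      ring
  obtain ⟨p, hp, hpd⟩ := Nat.exists_prime_and_dvd hm
  have hpd' : (p : ℤ) ∣ 1 + (B.factorial : ℤ) * (k * q) := Int.natCast_dvd.2 hpd
  refine ⟨p, hp, ?_, c * B.factorial * k, ?_⟩
  · by_contra hcon
    push Not at hcon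
    have h1 : (p : ℤ) ∣ (B.factorial : ℤ) := by exact_mod_cast hp.dvd_factorial.2 hcon
    have h2 : (p : ℤ) ∣ 1 := by
      have := dvd_sub hpd' (h1.mul_right (k * q))
      rwa [add_sub_cancel_right] at this
    have h3 : p ∣ 1 := by exact_mod_cast h2
    exact hp.one_lt.ne' (Nat.dvd_one.1 h3)
  · rw [hval]
    exact hpd'.mul_left _

/-- a bound for the denominators -/
noncomputable def dB (h : ℚ[X]) : ℕ := ∑ k ∈ h.support, (h.coeff k).den

theorem exists_lift (p : ℕ) [Fact p.Prime] (h : ℚ[X]) (hp : dB h < p) :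
    ∃ H : ℤ_[p][X], H.map (algebraMap ℤ_[p] ℚ_[p]) = h.map (algebraMap ℚ ℚ_[p]) := by
  have : h.map (algebraMap ℚ ℚ_[p]) ∈ lifts (algebraMap ℤ_[p] ℚ_[p]) := by
    rw [lifts_iff_coeff_lifts]
    intro n
    rw [coeff_map]
    have hn : ‖(algebraMap ℚ ℚ_[p] (h.coeff n))‖ ≤ 1 := by
      rw [eq_ratCast]
      apply Padic.norm_rat_le_one
      intro hd
      by_cases hs : n ∈ h.support
      · have h1 : (h.coeff n).den ≤ dB h :=
          Finset.single_le_sum (f := fun k => (h.coeff k).den) (fun _ _ => Nat.zero_le _) hs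
        have h2 := Nat.le_of_dvd (h.coeff n).den_pos hd
        omega
      · rw [Polynomial.notMem_support_iff] at hs
        rw [hs] at hd
        have h2 := Nat.le_of_dvd (by norm_num) hd
        have h3 := (Fact.out : p.Prime).two_le
        norm_num at h2
        omega
    exact ⟨⟨_, hn⟩, rfl⟩
  exact (mem_lifts _).1 this

/-- finitely many algebraic numbers are `p`-adic integers for infinitely many `p` -/
theorem exists_embedding (Z : Finset (AlgebraicClosure ℚ)) (B : ℕ) :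
    ∃ (p : ℕ) (_ : Fact p.Prime), B < p ∧ ∃ σ : AlgebraicClosure ℚ →+* PadicAlgCl p,
      ∀ z ∈ Z, ∃ x : ℤ_[p], σ z = algebraMap ℚ_[p] (PadicAlgCl p) (x : ℚ_[p]) := by
  classical
  have hI : ∀ x : AlgebraicClosure ℚ, IsIntegral ℚ x := fun x =>
    ((AlgebraicClosure.isAlgebraic ℚ).isAlgebraic x).isIntegral
  set L := IntermediateField.adjoin ℚ (Z : Set (AlgebraicClosure ℚ)) with hL
  have : FiniteDimensional ℚ L := by
    have : Finite (Z : Set (AlgebraicClosure ℚ)) := Z.finite_toSet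
    exact IntermediateField.finiteDimensional_adjoin fun x _ => hI x
  obtain ⟨α, hα⟩ := Field.exists_primitive_element ℚ L
  set θ : AlgebraicClosure ℚ := (α : AlgebraicClosure ℚ) with hθ
  have hpoly : ∀ z ∈ Z, ∃ h : ℚ[X], aeval θ h = z := by
    intro z hz
    have hzL : z ∈ L := IntermediateField.subset_adjoin _ _ hz
    have h1 : (⟨z, hzL⟩ : L) ∈ IntermediateField.adjoin ℚ {α} := by
      rw [hα]; exact IntermediateField.mem_top
    rw [← IntermediateField.mem_toSubalgebra,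
      IntermediateField.adjoin_simple_toSubalgebra_of_isAlgebraic
        (Algebra.IsAlgebraic.isAlgebraic α), Algebra.adjoin_singleton_eq_range_aeval] at h1
    obtain ⟨h, hh⟩ := h1
    refine ⟨h, ?_⟩
    have := congrArg (algebraMap L (AlgebraicClosure ℚ)) hh
    have h2 : algebraMap L (AlgebraicClosure ℚ) (aeval α h) = z := this
    rwa [← aeval_algebraMap_apply] at h2
  choose! h hh using hpoly
  set m := minpoly ℚ θ with hm
  have hint : IsIntegral ℚ θ := hI θ
  have hsep : m.Separable := (minpoly.irreducible hint).separable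
  obtain ⟨u, v, huv⟩ := hsep
  obtain ⟨b, hb, hb'⟩ := IsLocalization.integerNormalization_spec (nonZeroDivisors ℤ) m
  set f := IsLocalization.integerNormalization (nonZeroDivisors ℤ) m with hf
  have hb0 : b ≠ 0 := nonZeroDivisors.ne_zero hb
  have hfdeg : 0 < f.natDegree := by
    have h1 : (f.map (algebraMap ℤ ℚ)).natDegree = f.natDegree :=
      natDegree_map_eq_of_injective (RingHom.injective_int _) f
    have h2 : b • m = (C (b : ℚ)) * m := by
      rw [← smul_eq_C_mul]
      exact (Int.cast_smul_eq_zsmul ℚ b m).symm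
    rw [← h1, hb', h2, natDegree_C_mul (by exact_mod_cast hb0)]
    exact minpoly.natDegree_pos hint
  obtain ⟨p, hp, hpB, a, ha⟩ := exists_prime_dvd f hfdeg
    (B + dB m + dB u + dB v + b.natAbs + ∑ z ∈ Z, dB (h z))
  have hfact : Fact p.Prime := ⟨hp⟩
  refine ⟨p, hfact, by omega, ?_⟩
  obtain ⟨M, hM⟩ := exists_lift p m (by omega)
  obtain ⟨U, hU⟩ := exists_lift p u (by omega)
  obtain ⟨V, hV⟩ := exists_lift p v (by omega)
  have hinj : Function.Injective (algebraMap ℤ_[p] ℚ_[p]) := Subtype.coe_injective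
  have hUV : U * M + V * derivative M = 1 := by
    apply Polynomial.map_injective _ hinj
    rw [Polynomial.map_add, Polynomial.map_mul, Polynomial.map_mul, ← derivative_map, hM, hU, hV,
      derivative_map, ← Polynomial.map_mul, ← Polynomial.map_mul, ← Polynomial.map_add, huv,
      Polynomial.map_one, Polynomial.map_one]
  have hval : ((b : ℤ) : ℤ_[p]) * M.eval (a : ℤ_[p]) = ((f.eval a : ℤ) : ℤ_[p]) := by
    apply hinj
    rw [map_mul, map_intCast, map_intCast]
    have e1 : algebraMap ℤ_[p] ℚ_[p] (M.eval (a : ℤ_[p])) =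
        algebraMap ℚ ℚ_[p] (m.eval (a : ℚ)) := by
      rw [← eval_intCast_map, hM, eval_intCast_map]
    have e2 : (b : ℚ) * m.eval (a : ℚ) = ((f.eval a : ℤ) : ℚ) := by
      have h1 : (f.map (algebraMap ℤ ℚ)).eval (a : ℚ) = algebraMap ℤ ℚ (f.eval a) := by
        rw [eval_intCast_map, Int.cast_id]
      have h2 : b • m = (C (b : ℚ)) * m := by
        rw [← smul_eq_C_mul]
        exact (Int.cast_smul_eq_zsmul ℚ b m).symm
      rw [hb', h2, eval_mul, eval_C] at h1
      exact h1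
    rw [e1, eq_ratCast]
    have e3 := congrArg (fun q : ℚ => (q : ℚ_[p])) e2
    push_cast at e3
    exact e3
  have hfa : ‖((f.eval a : ℤ) : ℤ_[p])‖ < 1 := (PadicInt.norm_int_lt_one_iff_dvd _).2 ha
  have hbn : ‖((b : ℤ) : ℤ_[p])‖ = 1 := by
    refine le_antisymm (PadicInt.norm_le_one _) (not_lt.1 fun hlt => ?_)
    have h1 := (PadicInt.norm_int_lt_one_iff_dvd _).1 hlt
    have h2 := Int.natCast_dvd.1 h1
    have h3 := Nat.le_of_dvd (Int.natAbs_pos.2 hb0) h2
    omega
  have hMa : ‖M.eval (a : ℤ_[p])‖ < 1 := by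
    have := congrArg norm hval
    rw [norm_mul, hbn, one_mul] at this
    rwa [this]
  have hder : ‖(derivative M).eval (a : ℤ_[p])‖ = 1 := by
    have h1 : U.eval (a : ℤ_[p]) * M.eval (a : ℤ_[p]) +
        V.eval (a : ℤ_[p]) * (derivative M).eval (a : ℤ_[p]) = 1 := by
      rw [← eval_mul, ← eval_mul, ← eval_add, hUV, eval_one]
    refine le_antisymm (PadicInt.norm_le_one _) (not_lt.1 fun hlt => ?_)
    have h2 : ‖(1 : ℤ_[p])‖ < 1 := by
      rw [← h1]
      refine (PadicInt.nonarchimedean _ _).trans_lt (max_lt ?_ ?_)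
      · rw [norm_mul]
        exact (mul_le_of_le_one_left (norm_nonneg _) (PadicInt.norm_le_one _)).trans_lt hMa
      · rw [norm_mul]
        exact (mul_le_of_le_one_left (norm_nonneg _) (PadicInt.norm_le_one _)).trans_lt hlt
    rw [norm_one] at h2
    exact lt_irrefl _ h2
  obtain ⟨z₀, hz₀, -⟩ := hensels_lemma (p := p) (F := M) (a := (a : ℤ_[p])) (by
    have e1 : (derivative M).aeval (a : ℤ_[p]) = (derivative M).eval (a : ℤ_[p]) := by
      rw [coe_aeval_eq_eval]
    have e2 : M.aeval (a : ℤ_[p]) = M.eval (a : ℤ_[p]) := by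
      rw [coe_aeval_eq_eval]
    rw [e1, e2, hder, one_pow]
    exact hMa)
  rw [coe_aeval_eq_eval] at hz₀
  have key : ∀ (g : ℚ[X]) (G : ℤ_[p][X]), G.map (algebraMap ℤ_[p] ℚ_[p]) =
      g.map (algebraMap ℚ ℚ_[p]) →
      aeval (algebraMap ℚ_[p] (PadicAlgCl p) (z₀ : ℚ_[p])) g =
        algebraMap ℚ_[p] (PadicAlgCl p) ((G.eval z₀ : ℤ_[p]) : ℚ_[p]) := by
    intro g G hG
    have h1 : ((G.eval z₀ : ℤ_[p]) : ℚ_[p]) = (G.map (algebraMap ℤ_[p] ℚ_[p])).eval (z₀ : ℚ_[p]) :=
      (eval_map_apply (algebraMap ℤ_[p] ℚ_[p]) z₀).symm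
    rw [h1, hG, aeval_def, ← eval_map_apply, map_map, ← eval_map]
    congr 2
  have hroot : aeval (algebraMap ℚ_[p] (PadicAlgCl p) (z₀ : ℚ_[p])) (minpoly ℚ θ) = 0 := by
    rw [← hm, key m M hM, hz₀, PadicInt.coe_zero, map_zero]
  obtain ⟨φ, hφ⟩ := IntermediateField.exists_algHom_of_splits_of_aeval
    (F := ℚ) (E := AlgebraicClosure ℚ) (K := PadicAlgCl p) (x := θ)
    (fun s => ⟨hI s, IsAlgClosed.splits _⟩) hroot
  refine ⟨φ.toRingHom, fun z hz => ?_⟩
  obtain ⟨H, hH⟩ := exists_lift p (h z) (by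
    have := Finset.single_le_sum (f := fun z => dB (h z)) (fun _ _ => Nat.zero_le _) hz
    omega)
  refine ⟨H.eval z₀, ?_⟩
  have h1 := key (h z) H hH
  rw [← hφ] at h1
  rw [← h1, aeval_algHom_apply, hh z hz]
  rfl

/-- distinct places -/
theorem exists_places (Z : Finset (AlgebraicClosure ℚ)) :
    ∃ p : ℕ → ℕ, Function.Injective p ∧ ∀ i, ∃ (_ : Fact (p i).Prime)
      (σ : AlgebraicClosure ℚ →+* PadicAlgCl (p i)), ∀ z ∈ Z, ∃ x : ℤ_[p i],
        σ z = algebraMap ℚ_[p i] (PadicAlgCl (p i)) (x : ℚ_[p i]) := by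
  set S : Set ℕ := {p | ∃ (_ : Fact p.Prime)
      (σ : AlgebraicClosure ℚ →+* PadicAlgCl p), ∀ z ∈ Z, ∃ x : ℤ_[p],
        σ z = algebraMap ℚ_[p] (PadicAlgCl p) (x : ℚ_[p])} with hS
  have hinf : S.Infinite := by
    refine Set.infinite_of_forall_exists_gt fun B => ?_
    obtain ⟨p, hp, hB, σ, hσ⟩ := exists_embedding Z B
    exact ⟨p, ⟨hp, σ, hσ⟩, hB⟩
  have e := hinf.natEmbedding
  exact ⟨fun i => (e i : ℕ), fun i j h => e.injective (Subtype.ext h), fun i => (e i).2⟩

end Pool.Agent.TH61.PCF
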