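import Pool.Agent.TH61.PCF.Alg4
import Pool.Agent.TH61.PCF.Dense

/-!
# Split maps whose components have periodic critical points
-/

set_option autoImplicit false

namespace Pool.Agent.TH61.PCF

variable {K : Type} [Field K]

theorem pm_eq (F G : MvPolynomial (Fin 2) K) : pm F G K =
    fun v : Fin 2 → K => ![MvPolynomial.eval v F, MvPolynomial.eval v G] := by
  funext v
  unfold pm
  rw [aeval_eq_ev, aeval_eq_ev]

theorem periodic_mul {F G : MvPolynomial (Fin 2) K} {d : ℕ} (hF : F.IsHomogeneous d)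
    (hG : G.IsHomogeneous d) {c : Fin 2 → K} {n : ℕ} {t : K} (ht : t ≠ 0)
    (h : (pm F G K)^[n] c = t • c) (k : ℕ) :
    ∃ t' : K, t' ≠ 0 ∧ (pm F G K)^[n * k] c = t' • c := by
  induction k with
  | zero => exact ⟨1, one_ne_zero, by rw [mul_zero, one_smul]; rfl⟩
  | succ k ih =>
    obtain ⟨t', ht', h'⟩ := ih
    refine ⟨t' ^ (d ^ n) * t, mul_ne_zero (pow_ne_zero _ ht') ht, ?_⟩
    rw [Nat.mul_succ, Nat.add_comm, Function.iterate_add_apply, h', pm_iter_smul hF hG, h,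
      smul_smul]

theorem coord_of_periodic {F G : MvPolynomial (Fin 2) (AlgebraicClosure ℚ)} {d : ℕ} (hd : 2 ≤ d)
    (hF : F.IsHomogeneous d) (hG : G.IsHomogeneous d)
    (h0 : ∀ v : Fin 2 → AlgebraicClosure ℚ, MvPolynomial.eval v F = 0 →
      MvPolynomial.eval v G = 0 → v = 0)
    {c : Fin 2 → AlgebraicClosure ℚ} (hc0 : c ≠ 0)
    (hJ : MvPolynomial.eval c (MvPolynomial.pderiv 0 F * MvPolynomial.pderiv 1 G -
      MvPolynomial.pderiv 1 F * MvPolynomial.pderiv 0 G) = 0) {n : ℕ}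
    {t : AlgebraicClosure ℚ} (ht : t ≠ 0)
    (h : (pm F G (AlgebraicClosure ℚ))^[n] c = t • c) {M : ℕ} (hM : 0 < M) (hnM : n ∣ M) :
    ∃ C : Coord (AlgebraicClosure ℚ), C.Ψ = (pm F G (AlgebraicClosure ℚ))^[M] := by
  obtain ⟨k, rfl⟩ := hnM
  obtain ⟨t', ht', h'⟩ := periodic_mul hF hG ht h k
  obtain ⟨m, hm⟩ : ∃ m, n * k = m + 1 := ⟨n * k - 1, by omega⟩
  rw [hm] at h' ⊢
  exact exists_coord hd hF hG h0 hc0 ht' h' (superattracting hd hF hG h0 hc0 hJ h')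

end Pool.Agent.TH61.PCF
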